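import Pool.Agent.H30.CX.Fr

set_option autoImplicit false

/-! # [H30 CX An] see the docstring of `AnStmt` in `Fr.lean` -/

namespace Pool.Agent.H30.CX

open MeasureTheory Set Filter Topology Metric Pool.Agent.H74.SX

theorem an : AnStmt := by
  intro ψ c hψ hc
  obtain ⟨r, hr, hd⟩ := hψ.hol
  have hr1 : max r (1 / 2) < 1 := max_lt hr (by norm_num)
  have hr0 : 0 < max r (1 / 2) := lt_of_lt_of_le (by norm_num) (le_max_right r (1 / 2))
  have hR : 1 < (max r (1 / 2))⁻¹ := (one_lt_inv₀ hr0).2 hr1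
  refine ⟨(max r (1 / 2))⁻¹, Function.update (fun ζ => ζ * ψ ζ⁻¹) 0 c, hR, ?_, Function.update_self _ _ _,
    fun ζ hζ _ => Function.update_of_ne hζ _ _⟩
  have hmem : ball (0 : ℂ) (max r (1 / 2))⁻¹ ∈ 𝓝 (0 : ℂ) := ball_mem_nhds _ (by linarith)
  refine (Complex.differentiableOn_compl_singleton_and_continuousAt_iff hmem).1 ⟨?_, ?_⟩
  · have h1 : DifferentiableOn ℂ (fun ζ : ℂ => ζ * ψ ζ⁻¹) (ball (0 : ℂ) (max r (1 / 2))⁻¹ \ {0}) := by
      refine differentiableOn_id.mul (hd.comp (t := {w : ℂ | r < ‖w‖}) (g := ψ) (f := fun ζ : ℂ => ζ⁻¹) ?_ ?_)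
      · exact differentiableOn_inv.mono fun ζ hζ => hζ.2
      · intro ζ hζ
        have h0 : ζ ≠ 0 := hζ.2
        have hn : 0 < ‖ζ‖ := norm_pos_iff.2 h0
        have hb : ‖ζ‖ < (max r (1 / 2))⁻¹ := by simpa using hζ.1
        have : max r (1 / 2) < ‖ζ‖⁻¹ := (lt_inv_comm₀ hn hr0).1 hb
        show r < ‖ζ⁻¹‖
        rw [norm_inv]
        exact lt_of_le_of_lt (le_max_left _ _) this
    exact h1.congr fun ζ hζ => Function.update_of_ne hζ.2 _ _
  · rw [continuousAt_update_same]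
    have h2 : Tendsto (fun ζ : ℂ => ψ ζ⁻¹ / ζ⁻¹) (𝓝[≠] 0) (𝓝 c) := by
      have h3 : Tendsto (Inv.inv : ℂ → ℂ) (𝓝[≠] 0) (cocompact ℂ) := by
        rw [← Metric.cobounded_eq_cocompact]
        exact tendsto_inv₀_nhdsNE_zero
      exact hc.comp h3
    refine h2.congr fun ζ => ?_
    rw [div_inv_eq_mul, mul_comm]

end Pool.Agent.H30.CX
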