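import Pool.Agent.H30.CX.Lnk

set_option autoImplicit false

/-! # [H30 CX Asm] assembly from the statements (helper30) -/

namespace Pool.Agent.H30.CX

open MeasureTheory Set Filter Topology Metric Pool.Agent.H74.SX

/-- domains of large diameter -/
theorem thin (hw : WidStmt) (hf : CfuStmt) (hdi : DiaStmt) {ψ : ℂ → ℂ} (h : Chart ψ) {M : ℝ}
    (hM : ∀ w : ℂ, ‖w‖ = 1 → ‖deriv ψ w‖ ≤ M) (hlt : 6 * M * volume.real (Inn ψ) < diam (Inn ψ) ^ 3) :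
    minmax ψ (Inn ψ) (fun u => ContDiff ℝ 1 u) 2 < ((1 / M : ℝ) : EReal) := by
  obtain ⟨w, v, hw1, hv1, hd⟩ := hdi ψ h
  have hMp := M_pos h hM
  have hv0 : 0 ≤ volume.real (Inn ψ) := measureReal_nonneg
  have hd0 : 0 ≤ diam (Inn ψ) := diam_nonneg
  obtain ⟨l, hl⟩ : ∃ l, l = ‖ψ w - ψ v‖ := ⟨_, rfl⟩
  rw [← hl] at hd
  have hl0 : 0 < l := by
    rcases (hd0.trans hd).eq_or_lt with h0 | h0
    · exfalso
      have h1 : diam (Inn ψ) = 0 := le_antisymm (h0 ▸ hd) hd0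
      rw [h1] at hlt
      have : 0 ≤ 6 * M * volume.real (Inn ψ) := by positivity
      norm_num at hlt
      linarith
    · exact h0
  obtain ⟨u, hu⟩ : ∃ u : ℂ, u = (ψ w - ψ v) / l := ⟨_, rfl⟩
  have hl1 : (l : ℂ) ≠ 0 := by exact_mod_cast hl0.ne'
  have hu1 : ‖u‖ = 1 := by
    rw [hu, norm_div, Complex.norm_real, Real.norm_eq_abs, abs_of_pos hl0, ← hl, div_self hl0.ne']
  have hre : ((starRingEnd ℂ) u * (ψ w - ψ v)).re = l := by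
    have h1 : ψ w - ψ v = u * l := by rw [hu, div_mul_cancel₀ _ hl1]
    have h2 : (starRingEnd ℂ) u * (ψ w - ψ v) = ((l : ℝ) : ℂ) := by
      rw [h1, ← mul_assoc, mul_comm ((starRingEnd ℂ) u) u, Complex.mul_conj, Complex.normSq_eq_norm_sq, hu1]
      simp
    rw [h2, Complex.ofReal_re]
  have hD : ∀ m : ℝ, l ^ 3 / 6 ≤ bd ψ (fun z => (((starRingEnd ℂ) u * z).re - m) ^ 2) := by
    intro m
    have := hw ψ h u hu1 m w v hw1 hv1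
    rwa [hre, abs_of_pos hl0] at this
  have hD0 : 0 < l ^ 3 / 6 := by positivity
  refine lt_of_le_of_lt (hf ψ h u hu1 _ hD0 hD) ?_
  rw [EReal.coe_lt_coe_iff, div_lt_div_iff₀ hD0 hMp]
  have : diam (Inn ψ) ^ 3 ≤ l ^ 3 := pow_le_pow_left₀ hd0 hd 3
  linarith

/-- the four facts of the hand-in -/
theorem main (ha : AnStmt) (hn : NzStmt) (hx : CvxStmt) (hd : DerStmt) (hc : CapStmt) (hw : WidStmt) (hf : CfuStmt)
    (hdi : DiaStmt) (ψ : ℂ → ℂ) (h : Chart ψ) :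
    (∀ M : ℝ, (∀ w : ℂ, ‖w‖ = 1 → ‖deriv ψ w‖ ≤ M) → 6 * M * volume.real (Inn ψ) < diam (Inn ψ) ^ 3 →
      minmax ψ (Inn ψ) (fun u => ContDiff ℝ 1 u) 2 < ((1 / M : ℝ) : EReal) ∧
      ((1 / M : ℝ) : EReal) ≤ minmax ψ (Ext ψ) (ExtAdm ψ) 2) ∧
    (Convex ℝ (Inn ψ) →
      (∀ c : ℂ, Tendsto (fun w => ψ w / w) (cocompact ℂ) (𝓝 c) →
        (∀ w : ℂ, ‖w‖ = 1 → ‖deriv ψ w‖ ≤ 2 * ‖c‖) ∧ 2 * ‖c‖ ≤ diam (Inn ψ) ∧
        ((1 / (2 * ‖c‖) : ℝ) : EReal) ≤ minmax ψ (Ext ψ) (ExtAdm ψ) 2 ∧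
        (2 * ‖c‖ * volume.real (Inn ψ) < bd ψ (fun z => (z.re - bd ψ (fun z => z.re) / bd ψ (fun _ => 1)) ^ 2) →
          minmax ψ (Inn ψ) (fun u => ContDiff ℝ 1 u) 2 < ((1 / (2 * ‖c‖) : ℝ) : EReal))) ∧
      ((1 / diam (Inn ψ) : ℝ) : EReal) ≤ minmax ψ (Ext ψ) (ExtAdm ψ) 2 ∧
      (6 * volume.real (Inn ψ) < diam (Inn ψ) ^ 2 →
        minmax ψ (Inn ψ) (fun u => ContDiff ℝ 1 u) 2 < ((1 / diam (Inn ψ) : ℝ) : EReal))) := by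
  refine ⟨fun M hM hlt => ⟨thin hw hf hdi h hM hlt, lower h hM⟩, fun hcv => ?_⟩
  obtain ⟨c0, hc0, hc1⟩ := h.inf
  have hb0 : ∀ w : ℂ, ‖w‖ = 1 → ‖deriv ψ w‖ ≤ 2 * ‖c0‖ := fun w hw1 => lnk ha hn hx hd h hc1 hcv w hw1
  have hd0 := hc ψ c0 h hc1
  have hbd : ∀ w : ℂ, ‖w‖ = 1 → ‖deriv ψ w‖ ≤ diam (Inn ψ) := fun w hw1 => (hb0 w hw1).trans hd0
  have hdp : 0 < diam (Inn ψ) := M_pos h hbd
  refine ⟨fun c hcc => ?_, lower h hbd, fun hlt => thin hw hf hdi h hbd ?_⟩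
  · have hb : ∀ w : ℂ, ‖w‖ = 1 → ‖deriv ψ w‖ ≤ 2 * ‖c‖ := fun w hw1 => lnk ha hn hx hd h hcc hcv w hw1
    exact ⟨hb, hc ψ c h hcc, lower h hb, fun hlt => upper h hb hlt⟩
  · calc 6 * diam (Inn ψ) * volume.real (Inn ψ) = diam (Inn ψ) * (6 * volume.real (Inn ψ)) := by ring
      _ < diam (Inn ψ) * diam (Inn ψ) ^ 2 := mul_lt_mul_of_pos_left hlt hdp
      _ = diam (Inn ψ) ^ 3 := by ring

end Pool.Agent.H30.CX
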