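import Pool.Agent.H30.CX.Fr

set_option autoImplicit false

/-! # [H30 CX Bdd] see the docstring of `BddStmt` in `Fr.lean` -/

namespace Pool.Agent.H30.CX

open MeasureTheory Set Filter Topology Metric Pool.Agent.H74.SX

private theorem bdd_pre {M : ℝ} (hM : 0 < M) : IsPreconnected {w : ℂ | M < ‖w‖} := by
  have e : {w : ℂ | M < ‖w‖} = Complex.exp '' {w : ℂ | Real.log M < w.re} := by
    ext w
    simp only [mem_ofPred_eq, mem_image]
    constructor
    · intro h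
      have h0 : w ≠ 0 := by
        rintro rfl
        rw [norm_zero] at h
        linarith
      exact ⟨Complex.log w, by rw [Complex.log_re]; exact Real.log_lt_log hM h,
        Complex.exp_log h0⟩
    · rintro ⟨v, hv, rfl⟩
      rw [Complex.norm_exp]
      exact (Real.log_lt_iff_lt_exp hM).1 hv
  rw [e]
  exact (convex_halfSpace_re_gt (Real.log M)).isPreconnected.image _
    Complex.continuous_exp.continuousOn

private theorem bdd_grow {ψ : ℂ → ℂ} {c : ℂ} (hc : c ≠ 0)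
    (hinf : Tendsto (fun w => ψ w / w) (cocompact ℂ) (𝓝 c)) (B : ℝ) :
    ∃ M : ℝ, 1 ≤ M ∧ ∀ w, M < ‖w‖ → B < ‖ψ w‖ := by
  have hc0 : 0 < ‖c‖ := norm_pos_iff.2 hc
  have h := hinf.norm.eventually (lt_mem_nhds (half_lt_self hc0))
  rw [← Metric.cobounded_eq_cocompact, ← comap_norm_atTop, eventually_comap,
    eventually_atTop] at h
  obtain ⟨M0, h⟩ := h
  refine ⟨max 1 (max M0 (2 * B / ‖c‖)), le_max_left _ _, fun w hw => ?_⟩
  have h1 : 1 < ‖w‖ := lt_of_le_of_lt (le_max_left _ _) hw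
  have h2 : M0 < ‖w‖ := lt_of_le_of_lt ((le_max_left _ _).trans (le_max_right _ _)) hw
  have h3 : 2 * B / ‖c‖ < ‖w‖ := lt_of_le_of_lt ((le_max_right _ _).trans (le_max_right _ _)) hw
  have h4 := h _ h2.le w rfl
  rw [norm_div, lt_div_iff₀ (by linarith)] at h4
  rw [div_lt_iff₀ hc0] at h3
  nlinarith

theorem bdd : BddStmt := by
  rintro ψ ⟨⟨r, hr, hhol⟩, hinj, hnz, c, hc, hinf⟩
  have hgrow := bdd_grow hc hinf
  have hrop : IsOpen {w : ℂ | r < ‖w‖} := isOpen_lt continuous_const continuous_norm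
  have hdiff : ∀ w, 1 ≤ ‖w‖ → DifferentiableAt ℂ ψ w := fun w hw =>
    hhol.differentiableAt (hrop.mem_nhds (show r < ‖w‖ by linarith))
  have hcont : ∀ w, 1 ≤ ‖w‖ → ContinuousAt ψ w := fun w hw => (hdiff w hw).continuousAt
  have hcomp : ∀ M : ℝ, IsCompact {w : ℂ | 1 ≤ ‖w‖ ∧ ‖w‖ ≤ M} := fun M =>
    (isCompact_closedBall (0 : ℂ) M).of_isClosed_subset
      ((isClosed_le continuous_const continuous_norm).inter
        (isClosed_le continuous_norm continuous_const))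
      (fun w hw => by rw [mem_closedBall_zero_iff]; exact hw.2)
  have hclosed : IsClosed (ψ '' {w | 1 ≤ ‖w‖}) := by
    rw [← closure_subset_iff_isClosed]
    intro z hz
    obtain ⟨M, hM1, hM⟩ := hgrow (‖z‖ + 1)
    have hsub : ψ '' {w | 1 ≤ ‖w‖} ⊆
        ψ '' {w | 1 ≤ ‖w‖ ∧ ‖w‖ ≤ M} ∪ {y | ‖z‖ + 1 ≤ ‖y‖} := by
      rintro _ ⟨w, hw, rfl⟩
      rcases le_or_gt ‖w‖ M with h | h
      · exact Or.inl ⟨w, ⟨hw, h⟩, rfl⟩
      · exact Or.inr (hM w h).le
    have hcl : IsClosed (ψ '' {w | 1 ≤ ‖w‖ ∧ ‖w‖ ≤ M} ∪ {y | ‖z‖ + 1 ≤ ‖y‖}) :=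
      ((hcomp M).image_of_continuousOn
        (fun w hw => (hcont w hw.1).continuousWithinAt)).isClosed.union
        (isClosed_le continuous_const continuous_norm)
    rcases closure_minimal hsub hcl hz with h | h
    · obtain ⟨w, hw, rfl⟩ := h
      exact ⟨w, hw.1, rfl⟩
    · have h' : ‖z‖ + 1 ≤ ‖z‖ := h
      linarith
  have hop1 : IsOpen {w : ℂ | 1 < ‖w‖} := isOpen_lt continuous_const continuous_norm
  have hopen : IsOpen (ψ '' {w | 1 < ‖w‖}) := by
    have hana : AnalyticOnNhd ℂ ψ {w | 1 < ‖w‖} :=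
      (hhol.mono (fun w (hw : 1 < ‖w‖) => (show r < ‖w‖ by linarith))).analyticOnNhd hop1
    rcases hana.is_constant_or_isOpen (bdd_pre one_pos) with ⟨y, hy⟩ | h
    · exfalso
      have h2 : ψ 2 = ψ 3 := by
        rw [hy 2 (by simp), hy 3 (by simp)]
      have h3 := hinj (show (2 : ℂ) ∈ {w : ℂ | 1 ≤ ‖w‖} by simp) (show (3 : ℂ) ∈ {w : ℂ | 1 ≤ ‖w‖} by simp) h2
      norm_num at h3
    · exact h _ subset_rfl hop1
  have hsub1 : ψ '' {w | 1 < ‖w‖} ⊆ ψ '' {w | 1 ≤ ‖w‖} :=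
    image_mono (fun w (hw : 1 < ‖w‖) => hw.le)
  have hInn : Inn ψ = (ψ '' {w | 1 ≤ ‖w‖})ᶜ := rfl
  have h3 : ∀ w, ‖w‖ = 1 → ∀ᶠ v in 𝓝 w, ‖v‖ < 1 → ψ v ∈ Inn ψ := by
    intro w hw
    -- local injectivity
    have hstr : HasStrictDerivAt ψ (deriv ψ w) w := by
      have h1 : AnalyticAt ℂ ψ w :=
        hhol.analyticAt (hrop.mem_nhds (show r < ‖w‖ by linarith))
      exact h1.hasStrictDerivAt
    have hd0 : 0 < ‖deriv ψ w‖ := norm_pos_iff.2 (hnz w hw)
    have hloc : ∀ᶠ p : ℂ × ℂ in 𝓝 (w, w), ψ p.1 = ψ p.2 → p.1 = p.2 := by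
      have h1 := hstr.isLittleO.def (half_pos hd0)
      filter_upwards [h1] with p hp he
      rw [he, sub_self, zero_sub, norm_neg] at hp
      by_contra hne
      have h2 : 0 < ‖p.1 - p.2‖ := norm_pos_iff.2 (sub_ne_zero.2 hne)
      have h3 : ‖ContinuousLinearMap.toSpanSingleton ℂ (deriv ψ w) (p.1 - p.2)‖ =
          ‖p.1 - p.2‖ * ‖deriv ψ w‖ := by
        rw [ContinuousLinearMap.toSpanSingleton_apply, norm_smul]
      rw [h3] at hp
      nlinarith
    rw [nhds_prod_eq] at hloc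
    obtain ⟨V, hV, hVinj⟩ := Filter.eventually_prod_self_iff (r := fun x y => ψ x = ψ y → x = y).1 hloc
    obtain ⟨N, hNV, hNo, hwN⟩ := _root_.mem_nhds_iff.1 hV
    obtain ⟨M, hM1, hM⟩ := hgrow (‖ψ w‖ + 1)
    have hKc : IsCompact ({v : ℂ | 1 ≤ ‖v‖ ∧ ‖v‖ ≤ M} \ N) := (hcomp M).diff hNo
    have hKi : IsClosed (ψ '' ({v : ℂ | 1 ≤ ‖v‖ ∧ ‖v‖ ≤ M} \ N)) :=
      (hKc.image_of_continuousOn (fun v hv => (hcont v hv.1.1).continuousWithinAt)).isClosed
    have hnot : ψ w ∈ (ψ '' ({v : ℂ | 1 ≤ ‖v‖ ∧ ‖v‖ ≤ M} \ N))ᶜ := by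
      rintro ⟨v, hv, he⟩
      have := hinj (show v ∈ {w : ℂ | 1 ≤ ‖w‖} from hv.1.1) (show w ∈ {w : ℂ | 1 ≤ ‖w‖} from hw.ge) he
      rw [this] at hv
      exact hv.2 hwN
    have e1 := (hcont w hw.ge).eventually (hKi.isOpen_compl.mem_nhds hnot)
    have e2 := (hcont w hw.ge).norm.eventually (gt_mem_nhds (lt_add_one ‖ψ w‖))
    filter_upwards [e1, e2, hNo.mem_nhds hwN] with v g1 g2 g3 g4
    rw [hInn]
    rintro ⟨v', hv', he⟩
    have hv'M : ‖v'‖ ≤ M := by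
      by_contra hcon
      push Not at hcon
      have := hM v' hcon
      rw [he] at this
      linarith
    have hv'N : v' ∈ N := by
      by_contra hcon
      exact g1 ⟨v', ⟨⟨hv', hv'M⟩, hcon⟩, he⟩
    have := hVinj v' (hNV hv'N) v (hNV g3) he
    rw [this] at hv'
    have hv'' : 1 ≤ ‖v‖ := hv'
    linarith
  refine ⟨?_, hclosed.isOpen_compl, h3, ?_, ?_⟩
  · obtain ⟨B, hB⟩ := (isCompact_sphere (0 : ℂ) 1).exists_bound_of_continuousOn
      (f := ψ) (fun w hw => (hcont w (by rw [mem_sphere_zero_iff_norm] at hw; exact hw.ge)).continuousWithinAt)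
    have hs : {z : ℂ | max B 1 < ‖z‖} ⊆ ψ '' {w | 1 < ‖w‖} := by
      refine (bdd_pre (lt_of_lt_of_le one_pos (le_max_right B 1))).subset_left_of_subset_union
        hopen hclosed.isOpen_compl ?_ ?_ ?_
      · rw [Set.disjoint_left]
        intro z hz hz2
        exact hz2 (hsub1 hz)
      · intro z hz
        by_cases h : z ∈ ψ '' {w | 1 ≤ ‖w‖}
        · left
          obtain ⟨w, hw, rfl⟩ := h
          rcases lt_or_eq_of_le (show 1 ≤ ‖w‖ from hw) with h1 | h1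
          · exact ⟨w, h1, rfl⟩
          · exfalso
            have h2 := hB w (by rw [mem_sphere_zero_iff_norm]; exact h1.symm)
            have h4 : max B 1 < ‖ψ w‖ := hz
            have := le_max_left B 1
            linarith
        · right
          exact h
      · obtain ⟨M, hM1, hM⟩ := hgrow (max B 1)
        have hn : ‖((M + 1 : ℝ) : ℂ)‖ = M + 1 := by
          rw [Complex.norm_real, Real.norm_eq_abs, abs_of_pos (by linarith)]
        exact ⟨ψ ((M + 1 : ℝ) : ℂ), hM _ (by rw [hn]; linarith),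
          ⟨_, (show 1 < ‖((M + 1 : ℝ) : ℂ)‖ by rw [hn]; linarith), rfl⟩⟩
    refine (isBounded_closedBall (x := (0 : ℂ)) (r := max B 1)).subset ?_
    intro z hz
    rw [mem_closedBall_zero_iff]
    by_contra hcon
    push Not at hcon
    exact hz (hsub1 (hs hcon))
  · intro w hw
    have ht : Tendsto (fun s : ℝ => (s : ℂ) * w) (𝓝[<] (1 : ℝ)) (𝓝 w) := by
      have h1 : Continuous (fun s : ℝ => (s : ℂ) * w) := by fun_prop
      have h2 := h1.tendsto 1
      simp only [Complex.ofReal_one, one_mul] at h2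
      exact h2.mono_left nhdsWithin_le_nhds
    have ht2 : Tendsto (fun s : ℝ => ψ ((s : ℂ) * w)) (𝓝[<] (1 : ℝ)) (𝓝 (ψ w)) :=
      (hcont w hw.ge).tendsto.comp ht
    refine mem_closure_of_tendsto ht2 ?_
    have h5 : ∀ᶠ s : ℝ in 𝓝[<] (1 : ℝ), 0 < s :=
      nhdsWithin_le_nhds (lt_mem_nhds one_pos)
    filter_upwards [ht.eventually (h3 w hw), self_mem_nhdsWithin, h5] with s g1 g2 g3
    refine g1 ?_
    rw [norm_mul, hw, mul_one, Complex.norm_real, Real.norm_eq_abs, abs_of_pos g3]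
    exact g2
  · intro z hz hzn
    rw [hInn, Set.notMem_compl_iff] at hzn
    obtain ⟨w, hw, rfl⟩ := hzn
    refine ⟨w, ?_, rfl⟩
    by_contra hne
    have h1 : 1 < ‖w‖ := lt_of_le_of_ne hw (Ne.symm hne)
    have h2 : ψ w ∈ ψ '' {w | 1 < ‖w‖} := ⟨w, h1, rfl⟩
    obtain ⟨y, hy1, hy2⟩ := mem_closure_iff.1 hz _ hopen h2
    exact hy2 (hsub1 hy1)

end Pool.Agent.H30.CX
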