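import Pool.Agent.H30.CX.Fr

set_option autoImplicit false

/-! # [H30 CX Cap] see the docstring of `CapStmt` in `Fr.lean` -/

namespace Pool.Agent.H30.CX

open MeasureTheory Set Filter Topology Metric Pool.Agent.H74.SX

theorem cap (ha : AnStmt) (hb : BddStmt) : CapStmt := by
  intro ψ c hψ hc
  obtain ⟨R, A, hR, hA, hA0, hAe⟩ := ha ψ c hψ hc
  obtain ⟨hbd, -, -, hcl, -⟩ := hb ψ hψ
  have hneg : DifferentiableOn ℂ (fun ζ => A (-ζ)) (ball 0 R) := by
    refine hA.comp differentiable_neg.differentiableOn fun ζ hζ => ?_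
    simpa [mem_ball_zero_iff] using hζ
  have hG : DifferentiableOn ℂ (fun ζ => A ζ + A (-ζ)) (ball 0 R) := hA.add hneg
  have hcl1 : closure (ball (0 : ℂ) 1) ⊆ ball 0 R := by
    rw [closure_ball (0 : ℂ) one_ne_zero]
    exact closedBall_subset_ball hR
  have hd : DiffContOnCl ℂ (fun ζ => A ζ + A (-ζ)) (ball 0 1) := (hG.mono hcl1).diffContOnCl
  have hfr : ∀ ζ ∈ frontier (ball (0 : ℂ) 1), ‖A ζ + A (-ζ)‖ ≤ diam (Inn ψ) := by
    intro ζ hζ
    rw [frontier_ball (0 : ℂ) one_ne_zero, mem_sphere_zero_iff_norm] at hζ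
    have h0 : ζ ≠ 0 := by
      rintro rfl
      simp at hζ
    have e1 := hAe ζ h0 (by rw [hζ]; exact hR)
    have e2 := hAe (-ζ) (neg_ne_zero.2 h0) (by rw [norm_neg, hζ]; exact hR)
    have e3 : A ζ + A (-ζ) = ζ * (ψ ζ⁻¹ - ψ (-ζ)⁻¹) := by
      rw [e1, e2]
      ring
    rw [e3, norm_mul, hζ, one_mul, ← dist_eq_norm, ← diam_closure]
    refine dist_le_diam_of_mem hbd.closure (hcl _ ?_) (hcl _ ?_)
    · rw [norm_inv, hζ, inv_one]
    · rw [norm_inv, norm_neg, hζ, inv_one]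
  have h := Complex.norm_le_of_forall_mem_frontier_norm_le isBounded_ball hd hfr
    (subset_closure (mem_ball_self (x := (0 : ℂ)) one_pos))
  rw [neg_zero, hA0, ← two_mul, norm_mul] at h
  simpa using h

end Pool.Agent.H30.CX
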