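import Pool.Agent.H30.CX.Fr

set_option autoImplicit false

/-! # [H30 CX Cfu] see the docstring of `CfuStmt` in `Fr.lean` -/

namespace Pool.Agent.H30.CX

open MeasureTheory Set Filter Topology Metric Pool.Agent.H74.SX

namespace CfuAux

/-- the linear function `Re (conj u z)` -/
noncomputable def gu (u : ℂ) (z : ℂ) : ℝ := ((starRingEnd ℂ) u * z).re

/-- as a continuous linear map -/
noncomputable def guL (u : ℂ) : ℂ →L[ℝ] ℝ :=
  Complex.reCLM.comp (ContinuousLinearMap.mul ℝ ℂ ((starRingEnd ℂ) u))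

theorem guL_apply (u z : ℂ) : guL u z = gu u z := rfl

theorem guL_norm {u : ℂ} (hu : ‖u‖ = 1) : ‖guL u‖ = 1 := by
  apply le_antisymm
  · refine ContinuousLinearMap.opNorm_le_bound _ zero_le_one fun z => ?_
    rw [guL_apply, Real.norm_eq_abs, one_mul]
    refine (Complex.abs_re_le_norm _).trans ?_
    rw [norm_mul, RCLike.norm_conj, hu, one_mul]
  · have h := (guL u).le_opNorm u
    have h2 : guL u u = 1 := by
      rw [guL_apply]
      unfold gu
      rw [mul_comm, Complex.mul_conj, Complex.ofReal_re, Complex.normSq_eq_norm_sq, hu, one_pow]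
    rw [h2, hu, norm_one, mul_one] at h
    exact h

theorem cont_gu (u : ℂ) : Continuous (gu u) := (guL u).continuous

theorem bd_quad {ψ : ℂ → ℂ} (h : Chart ψ) (u : ℂ) (a b c : ℝ) :
    bd ψ (fun z => a * gu u z ^ 2 + b * gu u z + c) =
      a * bd ψ (fun z => gu u z ^ 2) + b * bd ψ (fun z => gu u z) + c * bd ψ (fun _ => 1) := by
  have h1 := CfiAux.cont_psi h
  have h2 := CfiAux.cont_der h
  have h3 : Continuous (fun θ : ℝ => gu u (ψ (Complex.exp (θ * Complex.I)))) :=
    (cont_gu u).comp h1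
  have i1 : IntervalIntegrable (fun θ : ℝ => a * (gu u (ψ (Complex.exp (θ * Complex.I))) ^ 2 *
      ‖deriv ψ (Complex.exp (θ * Complex.I))‖)) volume 0 (2 * Real.pi) :=
    (continuous_const.mul ((h3.pow 2).mul h2)).intervalIntegrable _ _
  have i2 : IntervalIntegrable (fun θ : ℝ => b * (gu u (ψ (Complex.exp (θ * Complex.I))) *
      ‖deriv ψ (Complex.exp (θ * Complex.I))‖)) volume 0 (2 * Real.pi) :=
    (continuous_const.mul (h3.mul h2)).intervalIntegrable _ _
  have i3 : IntervalIntegrable (fun θ : ℝ => c * (1 *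
      ‖deriv ψ (Complex.exp (θ * Complex.I))‖)) volume 0 (2 * Real.pi) :=
    (continuous_const.mul (continuous_const.mul h2)).intervalIntegrable _ _
  unfold bd
  rw [← intervalIntegral.integral_const_mul, ← intervalIntegral.integral_const_mul,
    ← intervalIntegral.integral_const_mul, ← intervalIntegral.integral_add i1 i2,
    ← intervalIntegral.integral_add (i1.add i2) i3]
  refine intervalIntegral.integral_congr fun θ _ => ?_
  change (a * gu u (ψ (Complex.exp (θ * Complex.I))) ^ 2 + b * gu u (ψ (Complex.exp (θ * Complex.I))) + c) *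
    ‖deriv ψ (Complex.exp (θ * Complex.I))‖ = _
  ring

theorem dir_lin (S : Set ℂ) {u : ℂ} (hu : ‖u‖ = 1) (a b : ℝ) :
    dir S (fun z => a + b * gu u z) = volume.real S * b ^ 2 := by
  have h1 : ∀ z : ℂ, ‖fderiv ℝ (fun z : ℂ => a + b * gu u z) z‖ ^ 2 = b ^ 2 := by
    intro z
    have h2 : HasFDerivAt (fun z : ℂ => a + b * gu u z) (b • guL u) z := by
      have h3 : HasFDerivAt (fun z : ℂ => b * guL u z) (b • guL u) z :=
        (guL u).hasFDerivAt.const_mul b
      exact h3.const_add a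
    rw [h2.fderiv, norm_smul, guL_norm hu, mul_one, Real.norm_eq_abs, sq_abs]
  unfold dir
  simp only [h1]
  rw [setIntegral_const, smul_eq_mul]

end CfuAux

open CfuAux in
theorem cfu : CfuStmt := by
  intro ψ hψ u hu D hD0 hD
  replace hD : ∀ m : ℝ, D ≤ bd ψ (fun z => (gu u z - m) ^ 2) := hD
  obtain ⟨A, hA⟩ : ∃ A, A = bd ψ (fun z => gu u z ^ 2) := ⟨_, rfl⟩
  obtain ⟨B, hB⟩ : ∃ B, B = bd ψ (fun z => gu u z) := ⟨_, rfl⟩
  obtain ⟨C, hC⟩ : ∃ C, C = bd ψ (fun _ => 1) := ⟨_, rfl⟩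
  have hC0 : 0 < C := by
    rw [hC]
    exact CfiAux.bd_one_pos hψ
  have hquad : ∀ a b c : ℝ, bd ψ (fun z => a * gu u z ^ 2 + b * gu u z + c) = a * A + b * B + c * C := by
    intro a b c
    rw [bd_quad hψ, ← hA, ← hB, ← hC]
  obtain ⟨m, hm⟩ : ∃ m, m = B / C := ⟨_, rfl⟩
  have hmC : m * C = B := by
    rw [hm, div_mul_cancel₀ _ hC0.ne']
  have hsq : ∀ m : ℝ, bd ψ (fun z => (gu u z - m) ^ 2) = A - 2 * m * B + m ^ 2 * C := by
    intro m
    have h1 : (fun z : ℂ => (gu u z - m) ^ 2) = fun z => 1 * gu u z ^ 2 + (-2 * m) * gu u z + m ^ 2 := by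
      funext z
      ring
    rw [h1, hquad]
    ring
  have hD' : D ≤ A - m * B := by
    have h1 := hD m
    rw [hsq, ← hmC] at h1
    rw [← hmC]
    linarith
  refine sInf_le ⟨volume.real (Inn ψ) / D, rfl, ![fun _ => 1, gu u], ?_, ?_, ?_⟩
  · intro i
    fin_cases i
    · exact contDiff_const
    · exact (guL u).contDiff
  · intro c hc
    have hc1 : c 1 = 0 := by
      by_contra hne
      have h1 : ∀ w : ℂ, ‖w‖ = 1 → gu u (ψ w) = -(c 0) / c 1 := by
        intro w hw
        have h2 := hc w hw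
        rw [Fin.sum_univ_two] at h2
        have h3 : c 0 * 1 + c 1 * gu u (ψ w) = 0 := h2
        rw [eq_div_iff hne]
        linarith
      have h2 := hD (-(c 0) / c 1)
      have h3 : bd ψ (fun z => (gu u z - -(c 0) / c 1) ^ 2) = 0 := by
        unfold bd
        have h4 : ∀ θ : ℝ, (gu u (ψ (Complex.exp (θ * Complex.I))) - -(c 0) / c 1) ^ 2 *
            ‖deriv ψ (Complex.exp (θ * Complex.I))‖ = 0 := by
          intro θ
          rw [h1 _ (Complex.norm_exp_ofReal_mul_I θ), sub_self]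
          ring
        simp only [h4, intervalIntegral.integral_zero]
      rw [h3] at h2
      linarith
    have hc0 : c 0 = 0 := by
      have h2 := hc 1 norm_one
      rw [Fin.sum_univ_two, hc1, zero_mul, add_zero] at h2
      have h3 : c 0 * 1 = 0 := h2
      rwa [mul_one] at h3
    funext i
    fin_cases i
    · exact hc0
    · exact hc1
  · intro c
    have h1 : (fun z : ℂ => ∑ i, c i * (![fun _ => 1, gu u] : Fin 2 → ℂ → ℝ) i z) =
        fun z => c 0 + c 1 * gu u z := by
      funext z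
      rw [Fin.sum_univ_two]
      change c 0 * 1 + c 1 * gu u z = _
      rw [mul_one]
    have h2 : (fun z : ℂ => (∑ i, c i * (![fun _ => 1, gu u] : Fin 2 → ℂ → ℝ) i z) ^ 2) =
        fun z => c 1 ^ 2 * gu u z ^ 2 + 2 * c 0 * c 1 * gu u z + c 0 ^ 2 := by
      funext z
      rw [Fin.sum_univ_two]
      change (c 0 * 1 + c 1 * gu u z) ^ 2 = _
      ring
    rw [h1, h2, hquad, dir_lin _ hu]
    have h3 : c 1 ^ 2 * A + 2 * c 0 * c 1 * B + c 0 ^ 2 * C = c 1 ^ 2 * (A - m * B) + (c 0 + c 1 * m) ^ 2 * C := by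
      rw [← hmC]
      ring
    rw [h3]
    have hR : 0 ≤ volume.real (Inn ψ) / D := div_nonneg measureReal_nonneg hD0.le
    have h4 : volume.real (Inn ψ) / D * (c 1 ^ 2 * D) = volume.real (Inn ψ) * c 1 ^ 2 := by
      field_simp
    have h5 : 0 ≤ volume.real (Inn ψ) / D * ((c 0 + c 1 * m) ^ 2 * C) :=
      mul_nonneg hR (mul_nonneg (sq_nonneg _) hC0.le)
    have h6 : volume.real (Inn ψ) / D * (c 1 ^ 2 * D) ≤ volume.real (Inn ψ) / D * (c 1 ^ 2 * (A - m * B)) :=
      mul_le_mul_of_nonneg_left (mul_le_mul_of_nonneg_left hD' (sq_nonneg _)) hR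
    rw [mul_add]
    linarith

end Pool.Agent.H30.CX
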