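import Pool.Agent.H30.CX.Fr

set_option autoImplicit false

/-! # [H30 CX Cvx] see the docstring of `CvxStmt` in `Fr.lean` -/

namespace Pool.Agent.H30.CX

open MeasureTheory Set Filter Topology Metric Pool.Agent.H74.SX

namespace CvxP

/-- second derivative at a maximum -/
theorem dd_nonpos (h : ℝ → ℝ) (h' : ℝ → ℝ) (h'' : ℝ) (h1 : ∀ θ, HasDerivAt h (h' θ) θ)
    (h2 : HasDerivAt h' h'' 0) (hm : ∀ θ, h θ ≤ h 0) : h' 0 = 0 ∧ h'' ≤ 0 := by
  have hmax : IsLocalMax h 0 := Filter.Eventually.of_forall hm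
  have e1 : h' 0 = 0 := hmax.hasDerivAt_eq_zero (h1 0)
  refine ⟨e1, ?_⟩
  by_contra hc
  push Not at hc
  have ed : deriv h = h' := funext fun θ => (h1 θ).deriv
  have hmin : IsLocalMin h 0 := by
    refine isLocalMin_of_deriv_deriv_pos ?_ ?_ (h1 0).continuousAt
    · rw [ed, h2.deriv]; exact hc
    · rw [ed]; exact e1
  have hev : h =ᶠ[𝓝 0] fun _ => h 0 := by
    filter_upwards [hmin] with θ hθ
    exact le_antisymm (hm θ) hθ
  have hev2 : h' =ᶠ[𝓝 0] fun _ => 0 := by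
    have := hev.deriv
    rw [ed] at this
    filter_upwards [this] with θ hθ
    rw [hθ]
    simp
  have := hev2.deriv_eq
  rw [h2.deriv] at this
  simp at this
  linarith

/-- one-sided: derivative is nonnegative if the values on the left are smaller -/
theorem left_nonneg (ρ : ℝ → ℝ) (ρ' : ℝ) (h1 : HasDerivAt ρ ρ' 1)
    (h2 : ∀ᶠ s in 𝓝[<] (1 : ℝ), ρ s ≤ ρ 1) : 0 ≤ ρ' := by
  have h3 := (hasDerivAt_iff_tendsto_slope.mp h1).mono_left
    (nhdsWithin_mono (1 : ℝ) (fun x (hx : x < 1) => (ne_of_lt hx : x ≠ 1)) : 𝓝[<] (1 : ℝ) ≤ 𝓝[≠] 1)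
  refine ge_of_tendsto h3 ?_
  filter_upwards [h2, self_mem_nhdsWithin] with s hs hs1
  have hs1' : s < 1 := hs1
  rw [slope_def_field]
  exact div_nonneg_of_nonpos (by linarith) (by linarith)

end CvxP

open CvxP in
theorem cvx (hb : BddStmt) : CvxStmt := by
  intro ψ hψ hcv w hw
  obtain ⟨-, hop, hin, hcl, -⟩ := hb ψ hψ
  obtain ⟨r, hr, hd⟩ := hψ.hol
  have hUo : IsOpen {w : ℂ | r < ‖w‖} := isOpen_lt continuous_const continuous_norm
  have hU : ∀ v : ℂ, ‖v‖ = 1 → v ∈ {w : ℂ | r < ‖w‖} := fun v hv => by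
    rw [mem_setOf_eq, hv]; exact hr
  have hd1 : ∀ v : ℂ, ‖v‖ = 1 → HasDerivAt ψ (deriv ψ v) v := fun v hv =>
    (hd.differentiableAt (hUo.mem_nhds (hU v hv))).hasDerivAt
  have hd2 : ∀ v : ℂ, ‖v‖ = 1 → HasDerivAt (deriv ψ) (deriv (deriv ψ) v) v := fun v hv =>
    ((hd.deriv hUo).differentiableAt (hUo.mem_nhds (hU v hv))).hasDerivAt
  have hnot : ψ w ∉ Inn ψ := fun h => h ⟨w, hw.ge, rfl⟩
  obtain ⟨f, hf⟩ := geometric_hahn_banach_open_point hcv hop hnot
  have hle : ∀ v : ℂ, ‖v‖ = 1 → f (ψ v) ≤ f (ψ w) := by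
    intro v hv
    have h1 : closure (Inn ψ) ⊆ {z | f z ≤ f (ψ w)} :=
      closure_minimal (fun z hz => (hf z hz).le) (isClosed_le f.continuous continuous_const)
    exact h1 (hcl v hv)
  have hw0 : w ≠ 0 := by
    intro h; rw [h] at hw; simp at hw
  have hn0 : w * deriv ψ w ≠ 0 := mul_ne_zero hw0 (hψ.nz w hw)
  -- the circle
  have hc1 : ∀ θ : ℝ, HasDerivAt (fun θ : ℝ => w * Complex.exp (θ * Complex.I))
      (w * (Complex.exp (θ * Complex.I) * Complex.I)) θ := by
    intro θ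
    have h1 : HasDerivAt (fun θ : ℝ => (θ : ℂ) * Complex.I) (1 * Complex.I) θ :=
      (hasDerivAt_id' θ).ofReal_comp.mul_const _
    have h2 := h1.cexp.const_mul w
    simpa using h2
  have hcn : ∀ θ : ℝ, ‖w * Complex.exp (θ * Complex.I)‖ = 1 := by
    intro θ
    rw [norm_mul, hw, Complex.norm_exp_ofReal_mul_I, one_mul]
  have hγ : ∀ θ : ℝ, HasDerivAt (fun θ : ℝ => ψ (w * Complex.exp (θ * Complex.I)))
      (deriv ψ (w * Complex.exp (θ * Complex.I)) * (w * (Complex.exp (θ * Complex.I) * Complex.I)))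
      θ := fun θ => (hd1 _ (hcn θ)).comp θ (hc1 θ)
  have hγ2 : HasDerivAt (fun θ : ℝ => deriv ψ (w * Complex.exp (θ * Complex.I)) *
      (w * (Complex.exp (θ * Complex.I) * Complex.I)))
      (-(w * deriv ψ w) - w ^ 2 * deriv (deriv ψ) w) 0 := by
    have h1 : HasDerivAt (fun θ : ℝ => deriv ψ (w * Complex.exp (θ * Complex.I)))
        (deriv (deriv ψ) (w * Complex.exp ((0 : ℝ) * Complex.I)) *
          (w * (Complex.exp ((0 : ℝ) * Complex.I) * Complex.I))) 0 :=
      HasDerivAt.comp (h₂ := deriv ψ) (0 : ℝ) (hd2 _ (hcn 0)) (hc1 0)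
    have h2 : HasDerivAt (fun θ : ℝ => w * (Complex.exp (θ * Complex.I) * Complex.I))
        (w * (Complex.exp ((0 : ℝ) * Complex.I) * Complex.I) * Complex.I) 0 := by
      have := (hc1 0).mul_const Complex.I
      refine this.congr_of_eventuallyEq (Filter.Eventually.of_forall fun θ => ?_)
      simp only
      ring
    have h3 := h1.mul h2
    refine h3.congr_deriv ?_
    simp only [Complex.ofReal_zero, zero_mul, Complex.exp_zero, mul_one, one_mul]
    linear_combination (deriv ψ w * w + deriv (deriv ψ) w * w ^ 2) * Complex.I_mul_I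
  have hkey := dd_nonpos (fun θ : ℝ => f (ψ (w * Complex.exp (θ * Complex.I))))
    (fun θ : ℝ => f (deriv ψ (w * Complex.exp (θ * Complex.I)) *
      (w * (Complex.exp (θ * Complex.I) * Complex.I))))
    (f (-(w * deriv ψ w) - w ^ 2 * deriv (deriv ψ) w))
    (fun θ => f.hasFDerivAt.comp_hasDerivAt θ (hγ θ))
    (f.hasFDerivAt.comp_hasDerivAt 0 hγ2)
    (fun θ => by
      have h1 := hle _ (hcn θ)
      simpa using h1)
  obtain ⟨k1, k2⟩ := hkey
  simp only [Complex.ofReal_zero, zero_mul, Complex.exp_zero, mul_one, one_mul] at k1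
  -- the functional
  have hfz : ∀ z : ℂ, f z = (z / (w * deriv ψ w)).re * f (w * deriv ψ w) := by
    intro z
    have e1 : z = (z / (w * deriv ψ w)).re • (w * deriv ψ w) +
        (z / (w * deriv ψ w)).im • (deriv ψ w * (w * Complex.I)) := by
      have h1 := Complex.re_add_im (z / (w * deriv ψ w))
      have h2 : z = (z / (w * deriv ψ w)) * (w * deriv ψ w) := (div_mul_cancel₀ z hn0).symm
      calc z = (z / (w * deriv ψ w)) * (w * deriv ψ w) := h2
        _ = (((z / (w * deriv ψ w)).re : ℂ) + ((z / (w * deriv ψ w)).im : ℂ) * Complex.I) *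
            (w * deriv ψ w) := by rw [h1]
        _ = _ := by
          rw [Complex.real_smul, Complex.real_smul]
          ring
    have e2 := congrArg f e1
    rw [map_add, map_smul, map_smul, k1, smul_zero, add_zero, smul_eq_mul] at e2
    exact e2
  -- inward
  have hrad : HasDerivAt (fun s : ℝ => f (ψ ((s : ℂ) * w))) (f (deriv ψ w * w)) 1 := by
    have h1 : HasDerivAt (fun s : ℝ => (s : ℂ) * w) w 1 := by
      have := (hasDerivAt_id' (1 : ℝ)).ofReal_comp.mul_const w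
      simpa using this
    have h2 : HasDerivAt ψ (deriv ψ w) (((1 : ℝ) : ℂ) * w) := by
      simpa using hd1 w hw
    have h3 : HasDerivAt (fun s : ℝ => ψ ((s : ℂ) * w)) (deriv ψ w * w) 1 :=
      HasDerivAt.comp (h₂ := ψ) (1 : ℝ) h2 h1
    exact f.hasFDerivAt.comp_hasDerivAt (1 : ℝ) h3
  have hev : ∀ᶠ s : ℝ in 𝓝[<] (1 : ℝ), ψ ((s : ℂ) * w) ∈ Inn ψ := by
    have h1 : Tendsto (fun s : ℝ => (s : ℂ) * w) (𝓝[<] (1 : ℝ)) (𝓝 w) := by
      have : ContinuousAt (fun s : ℝ => (s : ℂ) * w) 1 := by fun_prop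
      have h2 := this.tendsto
      simp only [Complex.ofReal_one, one_mul] at h2
      exact h2.mono_left nhdsWithin_le_nhds
    have h3 := h1.eventually (hin w hw)
    have h4 : ∀ᶠ s : ℝ in 𝓝[<] (1 : ℝ), 0 < s :=
      nhdsWithin_le_nhds (lt_mem_nhds (by norm_num : (0 : ℝ) < 1))
    filter_upwards [h3, h4, self_mem_nhdsWithin] with s hs hs0 hs1
    refine hs ?_
    have hs1' : s < 1 := hs1
    rw [norm_mul, hw, mul_one, Complex.norm_real, Real.norm_eq_abs, abs_of_pos hs0]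
    exact hs1'
  have hfn : 0 ≤ f (w * deriv ψ w) := by
    rw [mul_comm]
    refine left_nonneg _ _ hrad ?_
    filter_upwards [hev] with s hs
    have := (hf _ hs).le
    simpa using this
  have hfn0 : f (w * deriv ψ w) ≠ 0 := by
    intro h0
    obtain ⟨s, hs⟩ := hev.exists
    have h1 := hf _ hs
    rw [hfz (ψ ((s : ℂ) * w)), hfz (ψ w), h0] at h1
    simp at h1
  have hfp : 0 < f (w * deriv ψ w) := lt_of_le_of_ne hfn (Ne.symm hfn0)
  rw [hfz] at k2
  have k3 : ((-(w * deriv ψ w) - w ^ 2 * deriv (deriv ψ) w) / (w * deriv ψ w)).re ≤ 0 := by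
    by_contra hc
    push Not at hc
    exact absurd k2 (not_le.mpr (mul_pos hc hfp))
  have e3 : (-(w * deriv ψ w) - w ^ 2 * deriv (deriv ψ) w) / (w * deriv ψ w) =
      -(1 + w * deriv (deriv ψ) w / deriv ψ w) := by
    have := hψ.nz w hw
    field_simp
    ring
  rw [e3, Complex.neg_re] at k3
  linarith

end Pool.Agent.H30.CX
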