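import Pool.Agent.H30.CX.Fr

set_option autoImplicit false

/-! # [H30 CX Der] see the docstring of `DerStmt` in `Fr.lean` (helper63) -/

namespace Pool.Agent.H30.CX

open MeasureTheory Set Filter Topology Metric Pool.Agent.H74.SX

private theorem der_re (x y t : ℝ) (ht0 : 0 ≤ t) (ht1 : t < 1)
    (h : (x - 1) ^ 2 + y ^ 2 ≤ t ^ 2 * ((x + 1) ^ 2 + y ^ 2)) : 1 - x ≤ 2 * t / (1 + t) := by
  rw [le_div_iff₀ (by linarith)]
  by_contra hcon
  push Not at hcon
  have h1 : (1 + t) * x - (1 - t) < 0 := by nlinarith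
  have hx : x < 1 := by nlinarith
  have h2 : (1 - t) * x - (1 + t) < 0 := by nlinarith
  have h3 : 0 < ((1 + t) * x - (1 - t)) * ((1 - t) * x - (1 + t)) := mul_pos_of_neg_of_neg h1 h2
  have h4 : ((1 + t) * x - (1 - t)) * ((1 - t) * x - (1 + t)) =
      (x - 1) ^ 2 - t ^ 2 * (x + 1) ^ 2 := by ring
  have h5 : 0 ≤ (1 - t ^ 2) * y ^ 2 := mul_nonneg (by nlinarith) (sq_nonneg y)
  nlinarith

private theorem der_main (R : ℝ) (A : ℂ → ℂ) (hR : 1 < R) (hA : DifferentiableOn ℂ A (ball 0 R))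
    (hF : ∀ ζ, ‖ζ‖ ≤ 1 → A ζ - ζ * deriv A ζ ≠ 0)
    (hre : ∀ ζ, ‖ζ‖ = 1 → 0 ≤ (1 + ζ ^ 2 * deriv (deriv A) ζ / (A ζ - ζ * deriv A ζ)).re) :
    ∀ e, ‖e‖ = 1 → ‖A e - e * deriv A e‖ ≤ 2 * ‖A 0‖ := by
  have hA1 : DifferentiableOn ℂ (deriv A) (ball 0 R) := hA.deriv isOpen_ball
  have hA2 : DifferentiableOn ℂ (deriv (deriv A)) (ball 0 R) := hA1.deriv isOpen_ball
  have hmem : ∀ z : ℂ, ‖z‖ ≤ 1 → z ∈ ball (0 : ℂ) R := by
    intro z hz
    rw [mem_ball_zero_iff]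
    linarith
  have hat : ∀ z : ℂ, ‖z‖ ≤ 1 → DifferentiableAt ℂ A z := fun z hz =>
    hA.differentiableAt (isOpen_ball.mem_nhds (hmem z hz))
  have hat1 : ∀ z : ℂ, ‖z‖ ≤ 1 → DifferentiableAt ℂ (deriv A) z := fun z hz =>
    hA1.differentiableAt (isOpen_ball.mem_nhds (hmem z hz))
  have hat2 : ∀ z : ℂ, ‖z‖ ≤ 1 → DifferentiableAt ℂ (deriv (deriv A)) z := fun z hz =>
    hA2.differentiableAt (isOpen_ball.mem_nhds (hmem z hz))
  obtain ⟨F, hFdef⟩ : ∃ F : ℂ → ℂ, ∀ z, F z = A z - z * deriv A z := ⟨_, fun _ => rfl⟩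
  have hFeq : F = fun z => A z - z * deriv A z := funext hFdef
  simp only [← hFdef] at hF hre ⊢
  have hFd : ∀ z : ℂ, ‖z‖ ≤ 1 → HasDerivAt F (-(z * deriv (deriv A) z)) z := by
    intro z hz
    rw [hFeq]
    have h1 : HasDerivAt (fun z => A z - z * deriv A z)
        (deriv A z - (1 * deriv A z + z * deriv (deriv A) z)) z :=
      (hat z hz).hasDerivAt.sub ((hasDerivAt_id z).mul (hat1 z hz).hasDerivAt)
    refine h1.congr_deriv ?_
    ring
  obtain ⟨G, hG⟩ : ∃ G : ℂ → ℂ, ∀ z, G z = deriv (deriv A) z / F z := ⟨_, fun _ => rfl⟩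
  have hGd : ∀ z : ℂ, ‖z‖ ≤ 1 → DifferentiableAt ℂ G z := by
    intro z hz
    have h1 : G = fun z => deriv (deriv A) z / F z := funext hG
    rw [h1]
    exact (hat2 z hz).div (hFd z hz).differentiableAt (hF z hz)
  have hre' : ∀ z : ℂ, ‖z‖ = 1 → 0 ≤ (1 + z ^ 2 * G z).re := by
    intro z hz
    have := hre z hz
    rwa [mul_div_assoc, ← hG] at this
  have hcl : closure (ball (0 : ℂ) 1) = closedBall 0 1 := closure_ball _ one_ne_zero
  have hfr : frontier (ball (0 : ℂ) 1) = sphere 0 1 := frontier_ball _ one_ne_zero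
  have hmax : ∀ f : ℂ → ℂ, (∀ z : ℂ, ‖z‖ ≤ 1 → DifferentiableAt ℂ f z) →
      (∀ z : ℂ, ‖z‖ = 1 → ‖f z‖ ≤ 1) → ∀ z : ℂ, ‖z‖ ≤ 1 → ‖f z‖ ≤ 1 := by
    intro f hf hf1 z hz
    refine Complex.norm_le_of_forall_mem_frontier_norm_le (U := ball (0 : ℂ) 1) isBounded_ball
      ?_ ?_ ?_
    · apply DifferentiableOn.diffContOnCl
      rw [hcl]
      intro w hw
      rw [mem_closedBall_zero_iff] at hw
      exact (hf w hw).differentiableWithinAt
    · intro w hw
      rw [hfr, mem_sphere_zero_iff_norm] at hw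
      exact hf1 w hw
    · rw [hcl, mem_closedBall_zero_iff]
      exact hz
  -- Re q ≥ 0
  have hq0 : ∀ z : ℂ, ‖z‖ ≤ 1 → 0 ≤ (1 + z ^ 2 * G z).re := by
    intro z hz
    have h1 := hmax (fun z => Complex.exp (-(1 + z ^ 2 * G z)))
      (fun z hz => (((differentiableAt_id.pow 2).mul (hGd z hz)).const_add 1).neg.cexp)
      (by
        intro z hz
        rw [Complex.norm_exp, Complex.neg_re]
        have := hre' z hz
        rw [Real.exp_le_one_iff]
        linarith) z hz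
    rw [Complex.norm_exp, Complex.neg_re, Real.exp_le_one_iff] at h1
    linarith
  have hne : ∀ z : ℂ, ‖z‖ ≤ 1 → (2 + z ^ 2 * G z) ≠ 0 := by
    intro z hz h0
    have h1 := hq0 z hz
    have h2 : (1 + z ^ 2 * G z) = (2 + z ^ 2 * G z) - 1 := by ring
    rw [h2, h0] at h1
    norm_num at h1
  have hle : ∀ z : ℂ, ‖z‖ ≤ 1 → ‖z ^ 2 * G z‖ ≤ ‖2 + z ^ 2 * G z‖ := by
    intro z hz
    have h1 := hq0 z hz
    have h2 : (1 + z ^ 2 * G z).re = 1 + (z ^ 2 * G z).re := by simp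
    rw [h2] at h1
    rw [← sq_le_sq₀ (norm_nonneg _) (norm_nonneg _), Complex.sq_norm, Complex.sq_norm,
      Complex.normSq_apply, Complex.normSq_apply]
    have h3 : (2 + z ^ 2 * G z).re = 2 + (z ^ 2 * G z).re := by simp
    have h4 : (2 + z ^ 2 * G z).im = (z ^ 2 * G z).im := by simp
    rw [h3, h4]
    nlinarith
  have hg : ∀ z : ℂ, ‖z‖ ≤ 1 → ‖G z / (2 + z ^ 2 * G z)‖ ≤ 1 := by
    refine hmax (fun z => G z / (2 + z ^ 2 * G z)) ?_ ?_
    · intro z hz
      exact (hGd z hz).div (((differentiableAt_id.pow 2).mul (hGd z hz)).const_add 2) (hne z hz)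
    · intro z hz
      have h1 := hle z hz.le
      rw [norm_mul, norm_pow, hz, one_pow, one_mul] at h1
      rw [norm_div]
      exact div_le_one_of_le₀ h1 (norm_nonneg _)
  have hq1 : ∀ z : ℂ, ‖z‖ < 1 → -(z ^ 2 * G z).re ≤ 2 * ‖z‖ ^ 2 / (1 + ‖z‖ ^ 2) := by
    intro z hz
    have h1 := hg z hz.le
    rw [norm_div, div_le_one (norm_pos_iff.mpr (hne z hz.le))] at h1
    have h2 : ‖z ^ 2 * G z‖ ≤ ‖z‖ ^ 2 * ‖2 + z ^ 2 * G z‖ := by
      rw [norm_mul, norm_pow]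
      exact mul_le_mul_of_nonneg_left h1 (by positivity)
    have h3 := der_re (1 + (z ^ 2 * G z).re) (z ^ 2 * G z).im (‖z‖ ^ 2) (by positivity)
      (by
        have h0 := norm_nonneg z
        nlinarith) (by
        have h4 : ‖z ^ 2 * G z‖ ^ 2 ≤ (‖z‖ ^ 2 * ‖2 + z ^ 2 * G z‖) ^ 2 :=
          pow_le_pow_left₀ (norm_nonneg _) h2 2
        rw [mul_pow, Complex.sq_norm (z ^ 2 * G z), Complex.sq_norm (2 + z ^ 2 * G z),
          Complex.normSq_apply, Complex.normSq_apply] at h4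
        have h5 : (2 + z ^ 2 * G z).re = 2 + (z ^ 2 * G z).re := by simp
        have h6 : (2 + z ^ 2 * G z).im = (z ^ 2 * G z).im := by simp
        rw [h5, h6] at h4
        nlinarith)
    linarith
  intro e he
  have hse : ∀ s : ℝ, 0 ≤ s → s ≤ 1 → ‖(s : ℂ) * e‖ ≤ 1 := by
    intro s h0 h1
    rw [norm_mul, he, mul_one, Complex.norm_real, Real.norm_eq_abs, abs_of_nonneg h0]
    exact h1
  have hd : ∀ s : ℝ, 0 ≤ s → s ≤ 1 → HasDerivAt (fun s : ℝ => F ((s : ℂ) * e))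
      (-((s : ℂ) * e * deriv (deriv A) ((s : ℂ) * e)) * e) s := by
    intro s h0 h1
    have h2 := hFd _ (hse s h0 h1)
    have h3 : HasDerivAt (fun s : ℂ => s * e) e (s : ℂ) := by
      simpa using (hasDerivAt_id (s : ℂ)).mul_const e
    exact (h2.comp (s : ℂ) h3).comp_ofReal
  have hd2 : ∀ s : ℝ, 0 ≤ s → s ≤ 1 → HasDerivAt (fun s : ℝ => ‖F ((s : ℂ) * e)‖ ^ 2)
      (2 * (inner ℝ (F ((s : ℂ) * e))
        (-((s : ℂ) * e * deriv (deriv A) ((s : ℂ) * e)) * e))) s := by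
    intro s h0 h1
    exact (hd s h0 h1).norm_sq
  have hd3 : ∀ s : ℝ, HasDerivAt (fun s : ℝ => (1 + s ^ 2) ^ 2) (2 * (1 + s ^ 2) * (2 * s)) s := by
    intro s
    have h1 : HasDerivAt (fun s : ℝ => 1 + s ^ 2) (2 * s) s := by
      simpa using (hasDerivAt_pow 2 s).const_add 1
    have h2 : HasDerivAt (fun s : ℝ => (1 + s ^ 2) ^ 2) ((2 : ℕ) * (1 + s ^ 2) ^ (2 - 1) * (2 * s)) s :=
      h1.fun_pow 2
    refine h2.congr_deriv ?_
    norm_num
  have hanti : AntitoneOn (fun s : ℝ => ‖F ((s : ℂ) * e)‖ ^ 2 / (1 + s ^ 2) ^ 2) (Icc 0 1) := by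
    have hdd : ∀ s ∈ Icc (0 : ℝ) 1, HasDerivAt
        (fun s : ℝ => ‖F ((s : ℂ) * e)‖ ^ 2 / (1 + s ^ 2) ^ 2)
        ((2 * (inner ℝ (F ((s : ℂ) * e))
        (-((s : ℂ) * e * deriv (deriv A) ((s : ℂ) * e)) * e)) * (1 + s ^ 2) ^ 2 -
        ‖F ((s : ℂ) * e)‖ ^ 2 * (2 * (1 + s ^ 2) * (2 * s))) / ((1 + s ^ 2) ^ 2) ^ 2) s := by
      intro s hs
      exact (hd2 s hs.1 hs.2).div (hd3 s) (by positivity)
    apply antitoneOn_of_deriv_nonpos (convex_Icc 0 1)
    · intro s hs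
      exact (hdd s hs).continuousAt.continuousWithinAt
    · intro s hs
      rw [interior_Icc] at hs
      exact (hdd s ⟨hs.1.le, hs.2.le⟩).differentiableAt.differentiableWithinAt
    · intro s hs
      rw [interior_Icc] at hs
      rw [(hdd s ⟨hs.1.le, hs.2.le⟩).deriv]
      apply div_nonpos_of_nonpos_of_nonneg _ (by positivity)
      have hs0 := hs.1
      have hs1 := hs.2
      set z : ℂ := (s : ℂ) * e with hz
      have hzn : ‖z‖ = s := by
        rw [hz, norm_mul, he, mul_one, Complex.norm_real, Real.norm_eq_abs, abs_of_pos hs0]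
      have hFz := hF z (by rw [hzn]; exact hs1.le)
      have h1 := hq1 z (by rw [hzn]; exact hs1)
      rw [hzn] at h1
      -- inner product
      have h2 : s * inner ℝ (F z) (-(z * deriv (deriv A) z) * e) =
          -(z ^ 2 * G z).re * ‖F z‖ ^ 2 := by
        have h3 : (-(z * deriv (deriv A) z) * e) * (s : ℂ) = -(z ^ 2 * G z) * F z := by
          rw [hG z]
          field_simp
          rw [hz]
          ring
        have h4 : s * inner ℝ (F z) (-(z * deriv (deriv A) z) * e) =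
            inner ℝ (F z) ((-(z * deriv (deriv A) z) * e) * (s : ℂ)) := by
          rw [mul_comm _ (s : ℂ), ← Complex.real_smul, inner_smul_right]
        rw [h4, h3]
        rw [Complex.inner]
        have h5 : (-(z ^ 2 * G z) * F z) * (starRingEnd ℂ) (F z) =
            -(z ^ 2 * G z) * ((‖F z‖ ^ 2 : ℝ) : ℂ) := by
          rw [mul_assoc, Complex.mul_conj, Complex.normSq_eq_norm_sq]
        rw [h5, Complex.re_mul_ofReal, Complex.neg_re]
      have h6 : s * (inner ℝ (F z) (-(z * deriv (deriv A) z) * e) * (1 + s ^ 2)) ≤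
          s * (‖F z‖ ^ 2 * (2 * s)) := by
        have h7 : -(z ^ 2 * G z).re * (1 + s ^ 2) ≤ 2 * s ^ 2 := by
          rwa [le_div_iff₀ (by positivity)] at h1
        have h8 := mul_le_mul_of_nonneg_right h7 (sq_nonneg ‖F z‖)
        nlinarith
      have h9 := le_of_mul_le_mul_left h6 hs0
      have h10 := mul_le_mul_of_nonneg_right h9 (show (0 : ℝ) ≤ 2 * (1 + s ^ 2) by positivity)
      nlinarith
  have hfin := hanti (left_mem_Icc.mpr zero_le_one) (right_mem_Icc.mpr zero_le_one) zero_le_one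
  simp only [Complex.ofReal_one, one_mul, Complex.ofReal_zero, zero_mul] at hfin
  have hF0 : F 0 = A 0 := by rw [hFdef]; simp
  rw [hF0] at hfin
  norm_num at hfin
  have h11 : ‖F e‖ ^ 2 ≤ (2 * ‖A 0‖) ^ 2 := by
    rw [div_le_iff₀ (by norm_num)] at hfin
    nlinarith
  exact le_of_sq_le_sq h11 (by positivity)

theorem der : DerStmt := fun R A hR hA hF hre => der_main R A hR hA hF hre

end Pool.Agent.H30.CX
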