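import Pool.Agent.H30.CX.Fr

set_option autoImplicit false

/-! # [H30 CX Dia] see the docstring of `DiaStmt` in `Fr.lean` -/

namespace Pool.Agent.H30.CX

open MeasureTheory Set Filter Topology Metric Pool.Agent.H74.SX

private theorem dia_aux (Ω : Set ℂ) (hΩ : IsOpen Ω) (p q : ℂ) (hne : p ≠ q) (hp : p ∈ Ω) :
    ∃ p' ∈ Ω, dist p q < dist p' q := by
  have hc : Continuous fun t : ℝ => p + (t : ℂ) * (p - q) := by fun_prop
  have h1 : ∀ᶠ t : ℝ in 𝓝 0, p + (t : ℂ) * (p - q) ∈ Ω := by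
    refine hc.continuousAt.eventually_mem (hΩ.mem_nhds ?_)
    simpa using hp
  have h2 : ∀ᶠ t : ℝ in 𝓝[>] (0 : ℝ), p + (t : ℂ) * (p - q) ∈ Ω := nhdsWithin_le_nhds h1
  have h3 : ∀ᶠ t : ℝ in 𝓝[>] (0 : ℝ), 0 < t := self_mem_nhdsWithin
  obtain ⟨t, ht1, ht2⟩ := (h2.and h3).exists
  refine ⟨_, ht1, ?_⟩
  have hpos : 0 < ‖p - q‖ := norm_pos_iff.2 (sub_ne_zero.2 hne)
  rw [dist_eq_norm, dist_eq_norm]
  have e : p + (t : ℂ) * (p - q) - q = ((1 + t : ℝ) : ℂ) * (p - q) := by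
    push_cast
    ring
  rw [e, norm_mul, Complex.norm_real, Real.norm_eq_abs, abs_of_pos (by linarith)]
  nlinarith

theorem dia (hb : BddStmt) : DiaStmt := by
  intro ψ hψ
  obtain ⟨hbd, hop, -, hcl, hfr⟩ := hb ψ hψ
  have hK : IsCompact (closure (Inn ψ)) := hbd.isCompact_closure
  have h1 : ψ 1 ∈ closure (Inn ψ) := hcl 1 (by simp)
  have hKK : IsCompact (closure (Inn ψ) ×ˢ closure (Inn ψ)) := hK.prod hK
  obtain ⟨⟨p, q⟩, ⟨hp, hq⟩, hmax⟩ := hKK.exists_isMaxOn ⟨(ψ 1, ψ 1), h1, h1⟩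
    (continuous_dist.continuousOn)
  have hmax' : ∀ x ∈ closure (Inn ψ), ∀ y ∈ closure (Inn ψ), dist x y ≤ dist p q :=
    fun x hx y hy => hmax (show (x, y) ∈ closure (Inn ψ) ×ˢ closure (Inn ψ) from ⟨hx, hy⟩)
  have hd : diam (Inn ψ) ≤ dist p q :=
    Metric.diam_le_of_forall_dist_le dist_nonneg fun x hx y hy =>
      hmax' x (subset_closure hx) y (subset_closure hy)
  by_cases hpq : p = q
  · refine ⟨1, 1, by simp, by simp, ?_⟩
    rw [hpq, dist_self] at hd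
    exact hd.trans (norm_nonneg _)
  · have hp' : p ∉ Inn ψ := fun h => by
      obtain ⟨p', hp1, hp2⟩ := dia_aux _ hop p q hpq h
      exact absurd (hmax' p' (subset_closure hp1) q hq) (not_le.2 hp2)
    have hq' : q ∉ Inn ψ := fun h => by
      obtain ⟨q', hq1, hq2⟩ := dia_aux _ hop q p (Ne.symm hpq) h
      have h5 := hmax' q' (subset_closure hq1) p hp
      rw [dist_comm p q] at h5
      exact absurd h5 (not_le.2 hq2)
    obtain ⟨w, hw, hwp⟩ := hfr p hp hp'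
    obtain ⟨v, hv, hvq⟩ := hfr q hq hq'
    refine ⟨w, v, hw, hv, ?_⟩
    rw [hwp, hvq, ← dist_eq_norm]
    exact hd

end Pool.Agent.H30.CX
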