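import Pool.Agent.H30.CX.Fr

set_option autoImplicit false

/-! # [H30 CX Nz] see the docstring of `NzStmt` in `Fr.lean` -/

namespace Pool.Agent.H30.CX

open MeasureTheory Set Filter Topology Metric Pool.Agent.H74.SX

/-- an injective holomorphic function on an open set has nonzero derivative -/
private theorem nz_of_inj {f : ℂ → ℂ} {U : Set ℂ} (hU : IsOpen U) (hf : DifferentiableOn ℂ f U)
    (hi : InjOn f U) {a : ℂ} (ha : a ∈ U) : deriv f a ≠ 0 := by
  intro h0
  have hA : AnalyticAt ℂ f a := hf.analyticAt (hU.mem_nhds ha)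
  have hne : ∀ z ∈ U, ¬ ∀ᶠ y in 𝓝 z, f y = f z := by
    intro z hz hev
    have h1 : ∀ᶠ y in 𝓝[≠] z, f y = f z ∧ y ∈ U :=
      (hev.and (hU.mem_nhds hz)).filter_mono nhdsWithin_le_nhds
    obtain ⟨y, ⟨hy1, hy2⟩, hy3⟩ := (h1.and self_mem_nhdsWithin).exists
    exact hy3 (hi hy2 hz hy1)
  have hmap : ∀ z ∈ U, 𝓝 (f z) ≤ map f (𝓝 z) := by
    intro z hz
    rcases (hf.analyticAt (hU.mem_nhds hz)).eventually_constant_or_nhds_le_map_nhds with h1 | h1
    · exact absurd h1 (hne z hz)
    · exact h1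
  have hev : ∀ᶠ z in 𝓝[≠] a, deriv f z ≠ 0 := by
    rcases hA.deriv.eventually_eq_zero_or_eventually_ne_zero with h1 | h1
    · exfalso
      obtain ⟨r, hr, hball⟩ := Metric.eventually_nhds_iff_ball.1 (h1.and (hU.mem_nhds ha))
      refine hne a ha ?_
      filter_upwards [ball_mem_nhds a hr] with y hy
      exact isOpen_ball.is_const_of_deriv_eq_zero (convex_ball a r).isPreconnected
        (hf.mono fun z hz => (hball z hz).2) (fun z hz => (hball z hz).1) hy (mem_ball_self hr)
    · exact h1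
  obtain ⟨r, hr, hball⟩ := Metric.eventually_nhds_iff_ball.1
    ((eventually_nhdsWithin_iff.1 hev).and (hU.mem_nhds ha))
  obtain ⟨g, hg⟩ : ∃ g : ℂ → ℂ, ∀ z ∈ ball a r, g (f z) = z := by
    refine ⟨Function.invFunOn f (ball a r), fun z hz => ?_⟩
    exact (hi.mono fun y hy => (hball y hy).2).leftInvOn_invFunOn hz
  have hcont : ∀ z ∈ ball a r, ContinuousAt g (f z) := by
    intro z hz
    have h1 : Tendsto g (map f (𝓝 z)) (𝓝 (g (f z))) := by
      rw [hg z hz, tendsto_map'_iff]
      refine tendsto_id.congr' ?_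
      filter_upwards [isOpen_ball.mem_nhds hz] with y hy
      exact (hg y hy).symm
    exact h1.mono_left (hmap z (hball z hz).2)
  have himg : ∀ z ∈ ball a r, ∀ᶠ y in 𝓝 (f z), ∃ x ∈ ball a r, f x = y := by
    intro z hz
    exact hmap z (hball z hz).2 (image_mem_map (isOpen_ball.mem_nhds hz))
  have hdiff : ∀ z ∈ ball a r, z ≠ a → DifferentiableAt ℂ g (f z) := by
    intro z hz hza
    have hd : HasDerivAt f (deriv f z) (g (f z)) := by
      rw [hg z hz]
      exact ((hf z (hball z hz).2).differentiableAt (hU.mem_nhds (hball z hz).2)).hasDerivAt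
    refine (HasDerivAt.of_local_left_inverse (hcont z hz) hd ((hball z hz).1 hza) ?_).differentiableAt
    filter_upwards [himg z hz] with y hy
    obtain ⟨x, hx, rfl⟩ := hy
    rw [hg x hx]
  have hga : AnalyticAt ℂ g (f a) := by
    refine Complex.analyticAt_of_differentiable_on_punctured_nhds_of_continuousAt ?_
      (hcont a (mem_ball_self hr))
    rw [eventually_nhdsWithin_iff]
    filter_upwards [himg a (mem_ball_self hr)] with y hy hya
    obtain ⟨x, hx, rfl⟩ := hy
    exact hdiff x hx (fun h => hya (by rw [h]; rfl))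
  have h2 : HasDerivAt (fun z => g (f z)) (deriv g (f a) * deriv f a) a :=
    hga.differentiableAt.hasDerivAt.comp a hA.differentiableAt.hasDerivAt
  have h3 : HasDerivAt (fun z => g (f z)) 1 a := by
    refine (hasDerivAt_id a).congr_of_eventuallyEq ?_
    filter_upwards [ball_mem_nhds a hr] with y hy
    exact hg y hy
  have h4 := h2.unique h3
  rw [h0, mul_zero] at h4
  exact zero_ne_one h4

theorem nz : NzStmt := by
  intro ψ hψ w hw
  rcases hw.eq_or_lt with h | h
  · exact hψ.nz w h.symm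
  · obtain ⟨r, hr, hd⟩ := hψ.hol
    refine nz_of_inj (U := {w : ℂ | 1 < ‖w‖}) (isOpen_lt continuous_const continuous_norm)
      (hd.mono fun z hz => ?_) (hψ.inj.mono fun z hz => ?_) h
    · exact hr.trans hz
    · exact (le_of_lt hz : 1 ≤ ‖z‖)

end Pool.Agent.H30.CX
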