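import Pool.Agent.H30.CX.Fr

set_option autoImplicit false

/-!
# [H30 CX Wid] the width inequality (helper94)
-/

namespace Pool.Agent.H30.CX

open MeasureTheory Set Filter Topology Metric Pool.Agent.H74.SX

namespace WidP

theorem nrm (θ : ℝ) : ‖Complex.exp (θ * Complex.I)‖ = 1 := Complex.norm_exp_ofReal_mul_I θ

theorem ce : Continuous (fun θ : ℝ => Complex.exp (θ * Complex.I)) := by fun_prop

theorem diffAt {ψ : ℂ → ℂ} (h : Chart ψ) (θ : ℝ) : DifferentiableAt ℂ ψ (Complex.exp (θ * Complex.I)) := by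
  obtain ⟨r, hr, hd⟩ := h.hol
  have ho : IsOpen {w : ℂ | r < ‖w‖} := isOpen_lt continuous_const continuous_norm
  refine hd.differentiableAt (ho.mem_nhds ?_)
  show r < ‖Complex.exp (θ * Complex.I)‖
  rw [nrm]
  exact hr

theorem dcont {ψ : ℂ → ℂ} (h : Chart ψ) : Continuous (fun θ : ℝ => deriv ψ (Complex.exp (θ * Complex.I))) := by
  obtain ⟨r, hr, hd⟩ := h.hol
  have ho : IsOpen {w : ℂ | r < ‖w‖} := isOpen_lt continuous_const continuous_norm
  have h1 : DifferentiableOn ℂ (deriv ψ) {w : ℂ | r < ‖w‖} := hd.deriv ho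
  refine h1.continuousOn.comp_continuous ce (fun θ => ?_)
  show r < ‖Complex.exp (θ * Complex.I)‖
  rw [nrm]
  exact hr

theorem pcont {ψ : ℂ → ℂ} (h : Chart ψ) : Continuous (fun θ : ℝ => ψ (Complex.exp (θ * Complex.I))) := by
  rw [continuous_iff_continuousAt]
  intro θ
  exact ContinuousAt.comp (f := fun θ : ℝ => Complex.exp (θ * Complex.I)) (diffAt h θ).continuousAt ce.continuousAt

/-- the real part of the curve in the direction `u` -/
noncomputable def gg (ψ : ℂ → ℂ) (u : ℂ) (θ : ℝ) : ℝ := ((starRingEnd ℂ) u * ψ (Complex.exp (θ * Complex.I))).re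

/-- its derivative -/
noncomputable def gd (ψ : ℂ → ℂ) (u : ℂ) (θ : ℝ) : ℝ :=
  ((starRingEnd ℂ) u * (Complex.exp (θ * Complex.I) * Complex.I * deriv ψ (Complex.exp (θ * Complex.I)))).re

theorem hgd {ψ : ℂ → ℂ} (h : Chart ψ) (u : ℂ) (θ : ℝ) : HasDerivAt (gg ψ u) (gd ψ u θ) θ := by
  have h0 : HasDerivAt (fun θ : ℝ => (θ : ℂ) * Complex.I) (1 * Complex.I) θ :=
    (Complex.ofRealCLM.hasDerivAt (x := θ)).mul_const Complex.I
  have h1 : HasDerivAt (fun θ : ℝ => Complex.exp (θ * Complex.I)) (Complex.exp (θ * Complex.I) * (1 * Complex.I)) θ :=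
    h0.cexp
  rw [one_mul] at h1
  have h2 := HasDerivAt.scomp θ (diffAt h θ).hasDerivAt h1
  have h3 := h2.const_mul ((starRingEnd ℂ) u)
  have h4 := Complex.reCLM.hasFDerivAt.comp_hasDerivAt θ h3
  exact h4

theorem gc {ψ : ℂ → ℂ} (h : Chart ψ) (u : ℂ) : Continuous (gg ψ u) :=
  Complex.continuous_re.comp (continuous_const.mul (pcont h))

theorem gdc {ψ : ℂ → ℂ} (h : Chart ψ) (u : ℂ) : Continuous (gd ψ u) :=
  Complex.continuous_re.comp (continuous_const.mul ((ce.mul continuous_const).mul (dcont h)))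

theorem gdle {ψ : ℂ → ℂ} {u : ℂ} (hu : ‖u‖ = 1) (θ : ℝ) :
    |gd ψ u θ| ≤ ‖deriv ψ (Complex.exp (θ * Complex.I))‖ := by
  refine (Complex.abs_re_le_norm _).trans (le_of_eq ?_)
  rw [norm_mul, norm_mul, norm_mul, nrm, Complex.norm_I, RCLike.norm_conj, hu]
  ring

/-- the integrand -/
noncomputable def hh (ψ : ℂ → ℂ) (u : ℂ) (m : ℝ) (θ : ℝ) : ℝ :=
  (gg ψ u θ - m) ^ 2 * ‖deriv ψ (Complex.exp (θ * Complex.I))‖

theorem hc {ψ : ℂ → ℂ} (h : Chart ψ) (u : ℂ) (m : ℝ) : Continuous (hh ψ u m) :=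
  (((gc h u).sub continuous_const).pow 2).mul (dcont h).norm

theorem ftc {ψ : ℂ → ℂ} (h : Chart ψ) (u : ℂ) (m a b : ℝ) :
    ∫ θ in a..b, (gg ψ u θ - m) ^ 2 * gd ψ u θ = ((gg ψ u b - m) ^ 3 - (gg ψ u a - m) ^ 3) / 3 := by
  have h1 : ∀ θ : ℝ, HasDerivAt (fun θ => (gg ψ u θ - m) ^ 3 / 3) ((gg ψ u θ - m) ^ 2 * gd ψ u θ) θ := by
    intro θ
    have h2 := (((hgd h u θ).sub_const m).pow 3).div_const 3
    have h3 : (gg ψ u θ - m) ^ 2 * gd ψ u θ = (((3 : ℕ) : ℝ) * (gg ψ u θ - m) ^ (3 - 1) * gd ψ u θ) / 3 := by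
      norm_num
      ring
    rw [h3]
    exact h2
  rw [intervalIntegral.integral_eq_sub_of_hasDerivAt (fun θ _ => h1 θ)
    (((((gc h u).sub continuous_const).pow 2).mul (gdc h u)).intervalIntegrable a b)]
  ring

theorem arcle {ψ : ℂ → ℂ} (h : Chart ψ) {u : ℂ} (hu : ‖u‖ = 1) (m : ℝ) {a b : ℝ} (hab : a ≤ b) :
    |(gg ψ u b - m) ^ 3 - (gg ψ u a - m) ^ 3| / 3 ≤ ∫ θ in a..b, hh ψ u m θ := by
  have hi1 : IntervalIntegrable (fun θ => (gg ψ u θ - m) ^ 2 * gd ψ u θ) volume a b :=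
    ((((gc h u).sub continuous_const).pow 2).mul (gdc h u)).intervalIntegrable a b
  have hi2 : IntervalIntegrable (hh ψ u m) volume a b := (hc h u m).intervalIntegrable a b
  have h1 : ∫ θ in a..b, (gg ψ u θ - m) ^ 2 * gd ψ u θ ≤ ∫ θ in a..b, hh ψ u m θ := by
    refine intervalIntegral.integral_mono hab hi1 hi2 (fun θ => ?_)
    exact mul_le_mul_of_nonneg_left ((le_abs_self _).trans (gdle hu θ)) (sq_nonneg _)
  have h2 : ∫ θ in a..b, -((gg ψ u θ - m) ^ 2 * gd ψ u θ) ≤ ∫ θ in a..b, hh ψ u m θ := by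
    refine intervalIntegral.integral_mono hab hi1.neg hi2 (fun θ => ?_)
    have h3 := mul_le_mul_of_nonneg_left ((neg_le_abs _).trans (gdle (ψ := ψ) hu θ)) (sq_nonneg (gg ψ u θ - m))
    calc -((gg ψ u θ - m) ^ 2 * gd ψ u θ) = (gg ψ u θ - m) ^ 2 * -gd ψ u θ := by ring
      _ ≤ _ := h3
  rw [intervalIntegral.integral_neg, ftc h u m a b] at h2
  rw [ftc h u m a b] at h1
  rw [div_le_iff₀ (by norm_num), abs_le]
  constructor <;> linarith

theorem alg (x y : ℝ) : |x - y| ^ 3 / 6 ≤ |x ^ 3 - y ^ 3| / 3 + |x ^ 3 - y ^ 3| / 3 := by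
  have h1 : x ^ 3 - y ^ 3 = (x - y) * (x ^ 2 + x * y + y ^ 2) := by ring
  have h2 : (x - y) ^ 2 / 4 ≤ x ^ 2 + x * y + y ^ 2 := by nlinarith [sq_nonneg (x + y)]
  have h3 : 0 ≤ x ^ 2 + x * y + y ^ 2 := le_trans (by positivity) h2
  rw [h1, abs_mul, abs_of_nonneg h3]
  have h4 : |x - y| ^ 3 = |x - y| * (x - y) ^ 2 := by
    rw [pow_succ, sq_abs]
    ring
  rw [h4]
  have h5 := mul_le_mul_of_nonneg_left h2 (abs_nonneg (x - y))
  linarith

theorem core {ψ : ℂ → ℂ} (h : Chart ψ) {u : ℂ} (hu : ‖u‖ = 1) (m : ℝ) {a b : ℝ} (hab : a ≤ b)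
    (hb : b ≤ a + 2 * Real.pi) :
    |gg ψ u b - gg ψ u a| ^ 3 / 6 ≤ ∫ θ in (0 : ℝ)..(2 * Real.pi), hh ψ u m θ := by
  have hexp : ∀ θ : ℝ, Complex.exp (((θ + 2 * Real.pi : ℝ) : ℂ) * Complex.I) = Complex.exp (θ * Complex.I) := by
    intro θ
    have e : (((θ + 2 * Real.pi : ℝ) : ℂ)) * Complex.I = (θ : ℂ) * Complex.I + 2 * Real.pi * Complex.I := by
      push_cast
      ring
    rw [e]
    exact Complex.exp_periodic _
  have hgp : ∀ θ : ℝ, gg ψ u (θ + 2 * Real.pi) = gg ψ u θ := fun θ => by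
    unfold gg
    rw [hexp]
  have hper : Function.Periodic (hh ψ u m) (2 * Real.pi) := by
    intro θ
    unfold hh
    rw [hgp, hexp]
  have h1 : ∫ θ in (0 : ℝ)..(2 * Real.pi), hh ψ u m θ = ∫ θ in a..(a + 2 * Real.pi), hh ψ u m θ := by
    have := hper.intervalIntegral_add_eq 0 a
    rw [zero_add] at this
    exact this
  have h2 : (∫ θ in a..b, hh ψ u m θ) + ∫ θ in b..(a + 2 * Real.pi), hh ψ u m θ =
      ∫ θ in a..(a + 2 * Real.pi), hh ψ u m θ :=
    intervalIntegral.integral_add_adjacent_intervals ((hc h u m).intervalIntegrable _ _)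
      ((hc h u m).intervalIntegrable _ _)
  have h3 := arcle h hu m hab
  have h4 := arcle h hu m hb
  rw [hgp] at h4
  have h5 := alg (gg ψ u b - m) (gg ψ u a - m)
  rw [abs_sub_comm ((gg ψ u a - m) ^ 3)] at h4
  have h6 : gg ψ u b - m - (gg ψ u a - m) = gg ψ u b - gg ψ u a := by ring
  rw [h6] at h5
  rw [h1, ← h2]
  linarith

end WidP

theorem wid : WidStmt := by
  intro ψ h u hu m w v hw hv
  have ew : Complex.exp (Complex.arg w * Complex.I) = w := by
    have := Complex.norm_mul_exp_arg_mul_I w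
    rw [hw] at this
    simpa using this
  have ev : Complex.exp (Complex.arg v * Complex.I) = v := by
    have := Complex.norm_mul_exp_arg_mul_I v
    rw [hv] at this
    simpa using this
  have e1 : ((starRingEnd ℂ) u * (ψ w - ψ v)).re = WidP.gg ψ u (Complex.arg w) - WidP.gg ψ u (Complex.arg v) := by
    unfold WidP.gg
    rw [ew, ev, mul_sub, Complex.sub_re]
  have e2 : bd ψ (fun z => (((starRingEnd ℂ) u * z).re - m) ^ 2) =
      ∫ θ in (0 : ℝ)..(2 * Real.pi), WidP.hh ψ u m θ := rfl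
  rw [e1, e2]
  have hpi := Real.pi_pos
  have a1 := Complex.arg_le_pi w
  have a2 := Complex.neg_pi_lt_arg w
  have a3 := Complex.arg_le_pi v
  have a4 := Complex.neg_pi_lt_arg v
  rcases le_total (Complex.arg v) (Complex.arg w) with hl | hl
  · exact WidP.core h hu m hl (by linarith)
  · rw [abs_sub_comm]
    exact WidP.core h hu m hl (by linarith)

end Pool.Agent.H30.CX
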