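import Pool.Agent.H30.CX.Asm
import Pool.Agent.H30.CX.An
import Pool.Agent.H30.CX.Der
import Pool.Agent.H30.CX.Bdd
import Pool.Agent.H30.CX.Cvx
import Pool.Agent.H30.CX.Cap
import Pool.Agent.H30.CX.Wid
import Pool.Agent.H30.CX.Cfu
import Pool.Agent.H30.CX.Dia
import Pool.Agent.H30.CX.Nz

set_option autoImplicit false

/-! # [H30 CX Fin] the facts of the hand-in (helper30) -/

namespace Pool.Agent.H30.CX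

open MeasureTheory Set Filter Topology Metric Pool.Agent.H74.SX

theorem final (ψ : ℂ → ℂ) (h : Chart ψ) :
    (Bornology.IsBounded (Inn ψ) ∧ IsOpen (Inn ψ)) ∧
    (∀ M : ℝ, (∀ w : ℂ, ‖w‖ = 1 → ‖deriv ψ w‖ ≤ M) → 6 * M * volume.real (Inn ψ) < diam (Inn ψ) ^ 3 →
      minmax ψ (Inn ψ) (fun u => ContDiff ℝ 1 u) 2 < ((1 / M : ℝ) : EReal) ∧
      ((1 / M : ℝ) : EReal) ≤ minmax ψ (Ext ψ) (ExtAdm ψ) 2) ∧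
    (Convex ℝ (Inn ψ) →
      (∀ c : ℂ, Tendsto (fun w => ψ w / w) (cocompact ℂ) (𝓝 c) →
        (∀ w : ℂ, ‖w‖ = 1 → ‖deriv ψ w‖ ≤ 2 * ‖c‖) ∧ 2 * ‖c‖ ≤ diam (Inn ψ) ∧
        ((1 / (2 * ‖c‖) : ℝ) : EReal) ≤ minmax ψ (Ext ψ) (ExtAdm ψ) 2 ∧
        (2 * ‖c‖ * volume.real (Inn ψ) < bd ψ (fun z => (z.re - bd ψ (fun z => z.re) / bd ψ (fun _ => 1)) ^ 2) →
          minmax ψ (Inn ψ) (fun u => ContDiff ℝ 1 u) 2 < ((1 / (2 * ‖c‖) : ℝ) : EReal))) ∧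
      ((1 / diam (Inn ψ) : ℝ) : EReal) ≤ minmax ψ (Ext ψ) (ExtAdm ψ) 2 ∧
      (6 * volume.real (Inn ψ) < diam (Inn ψ) ^ 2 →
        minmax ψ (Inn ψ) (fun u => ContDiff ℝ 1 u) 2 < ((1 / diam (Inn ψ) : ℝ) : EReal))) :=
  ⟨⟨(bdd ψ h).1, (bdd ψ h).2.1⟩, main an nz (cvx bdd) der (cap an bdd) wid cfu (dia bdd) ψ h⟩

end Pool.Agent.H30.CX
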