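import Pool.Agent.H74.SX.Fin

set_option autoImplicit false

/-!
# [H30 CX Fr] MP_bddfa3_an, convex domains: statements of the modules (helper30)

`ψ` a chart (exterior map), `Ω = Inn ψ`. `A ζ = ζ ψ(1/ζ)`, `A 0 = c`, is holomorphic on a disc of radius `R > 1`;
`F ζ = A ζ - ζ A' ζ = ψ'(1/ζ)`; `q ζ = 1 - ζ F'/F = 1 + ζ² A''/F = 1 + w ψ''(w)/ψ'(w)`, `w = 1/ζ`.
-/

namespace Pool.Agent.H30.CX

open MeasureTheory Set Filter Topology Metric Pool.Agent.H74.SX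

/-- `An`: removable singularity of `ζ ψ(1/ζ)` at `0` (`Complex.analyticAt_of_differentiable_on_punctured_nhds_of_continuousAt`;
`R = 2` if `r ≤ 1/2`, else `R = 1/r` or smaller). -/
def AnStmt : Prop := ∀ (ψ : ℂ → ℂ) (c : ℂ), Chart ψ → Tendsto (fun w => ψ w / w) (cocompact ℂ) (𝓝 c) →
  ∃ (R : ℝ) (A : ℂ → ℂ), 1 < R ∧ DifferentiableOn ℂ A (ball 0 R) ∧ A 0 = c ∧
    ∀ ζ, ζ ≠ 0 → ‖ζ‖ < R → A ζ = ζ * ψ ζ⁻¹

/-- `Der`: `q = 1 + ζ² A''/F` has real part `≥ 0` on the circle, so on the disc; `ω = (q-1)/(q+1)` has a double zero and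
`|ω| ≤ 1`, so `|ω| ≤ |ζ|²`, `Re q ≥ (1-s²)/(1+s²)`, `s = |ζ|`; `d/ds log |F (s e)| = (1 - Re q)/s ≤ 2 s/(1+s²)`, integrate. -/
def DerStmt : Prop := ∀ (R : ℝ) (A : ℂ → ℂ), 1 < R → DifferentiableOn ℂ A (ball 0 R) →
  (∀ ζ, ‖ζ‖ ≤ 1 → A ζ - ζ * deriv A ζ ≠ 0) →
  (∀ ζ, ‖ζ‖ = 1 → 0 ≤ (1 + ζ ^ 2 * deriv (deriv A) ζ / (A ζ - ζ * deriv A ζ)).re) →
  ∀ ζ, ‖ζ‖ = 1 → ‖A ζ - ζ * deriv A ζ‖ ≤ 2 * ‖A 0‖

/-- `Bdd`: `Ω` is bounded and open, the curve is its boundary. Bounded: `ζ / A ζ` is an open map near `0` (derivative `1/c`), so all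
large `z` are values `ψ (1/ζ)` (or degree/`IsOpen` argument). Open: `ψ '' {1 ≤ ‖w‖}` is closed (`ψ` is proper: `ψ w / w → c ≠ 0`).
Closure: the local inverse of `ψ` at `w` (`HasStrictDerivAt.toOpenPartialHomeomorph` or `ψ` open near `w` and injective near `w`):
`ψ w'` with `‖w'‖ < 1` near `w` is in `Ω` (if `ψ w' = ψ v`, `‖v‖ ≥ 1`, then as `w' → w` also `v → w` by properness, against local
injectivity). Frontier: `ψ '' {1 < ‖w‖}` is open and disjoint from `Ω`. -/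
def BddStmt : Prop := ∀ ψ : ℂ → ℂ, Chart ψ → Bornology.IsBounded (Inn ψ) ∧ IsOpen (Inn ψ) ∧
  (∀ w, ‖w‖ = 1 → ∀ᶠ v in 𝓝 w, ‖v‖ < 1 → ψ v ∈ Inn ψ) ∧ (∀ w, ‖w‖ = 1 → ψ w ∈ closure (Inn ψ)) ∧
  ∀ z ∈ closure (Inn ψ), z ∉ Inn ψ → ∃ w, ‖w‖ = 1 ∧ ψ w = z

/-- `Cvx` (uses `Bdd`): support line at `ψ w0`: `f` real linear, `f z > f (ψ w0)` on `Ω` (`geometric_hahn_banach_open_point`), so
`f (ψ w) ≥ f (ψ w0)` on the circle (closure). `γ θ = ψ (w0 e^{iθ})`: `f ∘ γ` has a minimum at `0`: `f (γ' 0) = 0`, `f (γ'' 0) ≥ 0`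
(second derivative test, or Taylor), `γ' 0 = i w0 ψ' w0`, `γ'' 0 = - w0 ψ' w0 - w0² ψ'' w0`. With `n = w0 ψ' w0` (outward
normal) `f` vanishes on `i n`, so `f z = f n * Re (z / n)`, and `f n ≤ 0` (else `f (ψ (s w0)) < f (ψ w0)` for `s < 1` near `1`, but
such points are in `Ω` by `Bdd`); so `0 ≤ f (γ'') = - f n * Re (1 + w0 ψ''/ψ')`, and `f n ≠ 0`. -/
def CvxStmt : Prop := ∀ ψ : ℂ → ℂ, Chart ψ → Convex ℝ (Inn ψ) → ∀ w, ‖w‖ = 1 →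
  0 ≤ (1 + w * deriv (deriv ψ) w / deriv ψ w).re

/-- `Cap` (uses `An`, `Bdd`): maximum principle on the closed disc for `(A ζ + A (-ζ))/2`, `= (ψ w - ψ (-w)) ζ / 2` on the circle
(`w = 1/ζ`); `ψ w, ψ (-w)` are in the closure of `Ω`, `diam_closure`. -/
def CapStmt : Prop := ∀ (ψ : ℂ → ℂ) (c : ℂ), Chart ψ → Tendsto (fun w => ψ w / w) (cocompact ℂ) (𝓝 c) →
  2 * ‖c‖ ≤ diam (Inn ψ)

/-- `Wid`: on each of the two arcs `∫ (g - m)² |ψ'| ≥ |∫ (g - m)² g'| = |(g - m)³/3|` at the ends, `g θ = Re (conj u ψ(e^{iθ}))`,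
`|g'| ≤ |ψ'|`; `a³ + b³ ≥ (a + b)³/4`. -/
def WidStmt : Prop := ∀ ψ : ℂ → ℂ, Chart ψ → ∀ u : ℂ, ‖u‖ = 1 → ∀ m : ℝ, ∀ w v : ℂ, ‖w‖ = 1 → ‖v‖ = 1 →
  |((starRingEnd ℂ) u * (ψ w - ψ v)).re| ^ 3 / 6 ≤ bd ψ (fun z => (((starRingEnd ℂ) u * z).re - m) ^ 2)

/-- `Cfu`: as `cfi` with the test functions `1` and `Re (conj u z)`. -/
def CfuStmt : Prop := ∀ ψ : ℂ → ℂ, Chart ψ → ∀ u : ℂ, ‖u‖ = 1 → ∀ D : ℝ, 0 < D →
  (∀ m : ℝ, D ≤ bd ψ (fun z => (((starRingEnd ℂ) u * z).re - m) ^ 2)) →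
  minmax ψ (Inn ψ) (fun u => ContDiff ℝ 1 u) 2 ≤ ((volume.real (Inn ψ) / D : ℝ) : EReal)

/-- `Dia` (uses `Bdd`): the diameter is attained at two points of the curve (compactness of the closure; a maximal pair is not
in the open set `Ω`: move `p` away from `q`). -/
def DiaStmt : Prop := ∀ ψ : ℂ → ℂ, Chart ψ → ∃ w v : ℂ, ‖w‖ = 1 ∧ ‖v‖ = 1 ∧ diam (Inn ψ) ≤ ‖ψ w - ψ v‖

/-- `Nz`: `ψ' ≠ 0` on `|w| ≥ 1` and `c ≠ 0`, in terms of `A`. (`|w| > 1`: injective holomorphic functions have nonzero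
derivative; look in the library: H*/ injective deriv, or `Cv` of H74.) -/
def NzStmt : Prop := ∀ (ψ : ℂ → ℂ), Chart ψ → ∀ w, 1 ≤ ‖w‖ → deriv ψ w ≠ 0

end Pool.Agent.H30.CX
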