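import Pool.Agent.H30.CX.Fr

set_option autoImplicit false

/-! # [H30 CX Lnk] the exterior map of a convex domain: `|ψ'| ≤ 2 |c|` (helper30) -/

namespace Pool.Agent.H30.CX

open MeasureTheory Set Filter Topology Metric Pool.Agent.H74.SX

theorem c_ne {ψ : ℂ → ℂ} {c : ℂ} (h : Chart ψ) (hc : Tendsto (fun w => ψ w / w) (cocompact ℂ) (𝓝 c)) : c ≠ 0 := by
  obtain ⟨d, hd, hd2⟩ := h.inf
  have : (cocompact ℂ).NeBot := inferInstance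
  rw [tendsto_nhds_unique hc hd2]
  exact hd

theorem lnk (ha : AnStmt) (hn : NzStmt) (hx : CvxStmt) (hd : DerStmt) {ψ : ℂ → ℂ} {c : ℂ} (h : Chart ψ)
    (hc : Tendsto (fun w => ψ w / w) (cocompact ℂ) (𝓝 c)) (hcv : Convex ℝ (Inn ψ)) (w : ℂ) (hw : ‖w‖ = 1) :
    ‖deriv ψ w‖ ≤ 2 * ‖c‖ := by
  obtain ⟨R, A, hR, hA, hA0, hAe⟩ := ha ψ c h hc
  obtain ⟨r, hr, hψ⟩ := h.hol
  -- `A ζ = ζ ψ (1/ζ)` near `ζ`
  have hev : ∀ ζ : ℂ, ζ ≠ 0 → ‖ζ‖ < R → A =ᶠ[𝓝 ζ] fun z => z * ψ z⁻¹ := by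
    intro ζ h0 h1
    filter_upwards [isOpen_ne.mem_nhds h0, (isOpen_lt continuous_norm continuous_const).mem_nhds h1] with z hz0 hz1
    exact hAe z hz0 hz1
  -- `F ζ = ψ' (1/ζ)` where `ψ` is holomorphic at `1/ζ`
  have hF : ∀ ζ : ℂ, ζ ≠ 0 → ‖ζ‖ < R → r < ‖ζ⁻¹‖ → A ζ - ζ * deriv A ζ = deriv ψ ζ⁻¹ := by
    intro ζ h0 h1 h2
    have hdψ : HasDerivAt ψ (deriv ψ ζ⁻¹) ζ⁻¹ :=
      ((hψ.differentiableAt ((isOpen_lt continuous_const continuous_norm).mem_nhds h2))).hasDerivAt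
    have h3 : HasDerivAt (fun z : ℂ => ψ z⁻¹) (deriv ψ ζ⁻¹ * (-(ζ ^ 2)⁻¹)) ζ := hdψ.comp ζ (hasDerivAt_inv h0)
    have h4 := (hasDerivAt_id ζ).mul h3
    have h5 : deriv A ζ = 1 * ψ ζ⁻¹ + ζ * (deriv ψ ζ⁻¹ * (-(ζ ^ 2)⁻¹)) := by
      rw [(hev ζ h0 h1).deriv_eq]
      exact h4.deriv
    rw [h5, hAe ζ h0 h1]
    field_simp
    ring
  have hinv : ∀ ζ : ℂ, ζ ≠ 0 → ‖ζ‖ ≤ 1 → r < ‖ζ⁻¹‖ := by
    intro ζ h0 h1
    rw [norm_inv]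
    have : 1 ≤ ‖ζ‖⁻¹ := (one_le_inv₀ (norm_pos_iff.2 h0)).2 h1
    linarith
  have hnz : ∀ ζ : ℂ, ‖ζ‖ ≤ 1 → A ζ - ζ * deriv A ζ ≠ 0 := by
    intro ζ h1
    by_cases h0 : ζ = 0
    · rw [h0, zero_mul, sub_zero, hA0]
      exact c_ne h hc
    · rw [hF ζ h0 (by linarith) (hinv ζ h0 h1)]
      apply hn ψ h
      rw [norm_inv]
      exact (one_le_inv₀ (norm_pos_iff.2 h0)).2 h1
  have hre : ∀ ζ : ℂ, ‖ζ‖ = 1 → 0 ≤ (1 + ζ ^ 2 * deriv (deriv A) ζ / (A ζ - ζ * deriv A ζ)).re := by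
    intro ζ h1
    have h0 : ζ ≠ 0 := norm_pos_iff.1 (by rw [h1]; norm_num)
    have hR1 : ‖ζ‖ < R := by rw [h1]; exact hR
    have hr1 : r < ‖ζ⁻¹‖ := hinv ζ h0 h1.le
    have hAan : AnalyticAt ℂ A ζ := (hA.analyticAt (isOpen_ball.mem_nhds (by simpa using hR1)))
    have hψan : AnalyticAt ℂ ψ ζ⁻¹ :=
      hψ.analyticAt ((isOpen_lt continuous_const continuous_norm).mem_nhds hr1)
    -- derivative of `F` in two ways
    have hev2 : (fun z => A z - z * deriv A z) =ᶠ[𝓝 ζ] fun z => deriv ψ z⁻¹ := by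
      have hcont : ContinuousAt (fun z : ℂ => ‖z⁻¹‖) ζ := (continuousAt_inv₀ h0).norm
      filter_upwards [isOpen_ne.mem_nhds h0, (isOpen_lt continuous_norm continuous_const).mem_nhds hR1,
        hcont.eventually_const_lt hr1] with z hz0 hz1 hz2
      exact hF z hz0 hz1 hz2
    have d1 : HasDerivAt (fun z => A z - z * deriv A z) (deriv A ζ - (1 * deriv A ζ + ζ * deriv (deriv A) ζ)) ζ :=
      hAan.differentiableAt.hasDerivAt.sub ((hasDerivAt_id ζ).mul hAan.deriv.differentiableAt.hasDerivAt)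
    have d2 : HasDerivAt (fun z : ℂ => deriv ψ z⁻¹) (deriv (deriv ψ) ζ⁻¹ * (-(ζ ^ 2)⁻¹)) ζ :=
      HasDerivAt.comp ζ (h₂ := deriv ψ) hψan.deriv.differentiableAt.hasDerivAt (hasDerivAt_inv h0)
    have h6 : deriv A ζ - (1 * deriv A ζ + ζ * deriv (deriv A) ζ) = deriv (deriv ψ) ζ⁻¹ * (-(ζ ^ 2)⁻¹) := by
      rw [← d1.deriv, hev2.deriv_eq, d2.deriv]
    have h7 : ζ ^ 2 * deriv (deriv A) ζ = ζ⁻¹ * deriv (deriv ψ) ζ⁻¹ := by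
      have h8 : ζ * deriv (deriv A) ζ = deriv (deriv ψ) ζ⁻¹ * (ζ ^ 2)⁻¹ := by
        linear_combination -h6
      calc ζ ^ 2 * deriv (deriv A) ζ = ζ * (ζ * deriv (deriv A) ζ) := by ring
        _ = ζ⁻¹ * deriv (deriv ψ) ζ⁻¹ := by
          rw [h8]
          field_simp
    rw [h7, hF ζ h0 hR1 hr1]
    exact hx ψ h hcv ζ⁻¹ (by rw [norm_inv, h1, inv_one])
  have hw0 : w ≠ 0 := norm_pos_iff.1 (by rw [hw]; norm_num)
  have hwi : ‖w⁻¹‖ = 1 := by rw [norm_inv, hw, inv_one]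
  have key := hd R A hR hA hnz hre w⁻¹ hwi
  rw [hA0, hF w⁻¹ (inv_ne_zero hw0) (by rw [hwi]; exact hR) (by rw [inv_inv, hw]; exact hr), inv_inv] at key
  exact key

end Pool.Agent.H30.CX
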